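import Mathlib

set_option autoImplicit false
set_option linter.unusedSectionVars false

open MeasureTheory Set
open scoped ENNReal Real

namespace Pool.Agent.H52F

/-- the uniform probability measure on the angles `(0, 2π]` -/
noncomputable def unif : Measure ℝ :=
  (ENNReal.ofReal (2 * π))⁻¹ • (volume : Measure ℝ).restrict (Ioc 0 (2 * π))

instance : IsProbabilityMeasure unif := by
  constructor
  have h : ENNReal.ofReal (2 * π) ≠ 0 := by
    simp only [ne_eq, ENNReal.ofReal_eq_zero, not_le]; positivity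
  rw [unif, Measure.smul_apply, Measure.restrict_apply MeasurableSet.univ, univ_inter,
    Real.volume_Ioc, sub_zero, smul_eq_mul, ENNReal.inv_mul_cancel h ENNReal.ofReal_ne_top]

/-- the projection of the frozen statement -/
noncomputable def proj (θ : ℝ) (z : ℂ) : ℝ := z.re * Real.cos θ + z.im * Real.sin θ

lemma proj_add (θ : ℝ) (z w : ℂ) : proj θ (z + w) = proj θ z + proj θ w := by
  simp only [proj, Complex.add_re, Complex.add_im]; ring

lemma proj_sub (θ : ℝ) (z w : ℂ) : proj θ (z - w) = proj θ z - proj θ w := by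
  simp only [proj, Complex.sub_re, Complex.sub_im]; ring

lemma proj_rot (θ x : ℝ) (w : ℂ) :
    proj θ (Complex.exp (Complex.I * x) * w) = ‖w‖ * Real.cos (x + (w.arg - θ)) := by
  have h1 : Complex.exp (Complex.I * x) * w =
      ‖w‖ * Complex.exp (((x + w.arg : ℝ) : ℂ) * Complex.I) := by
    conv_lhs => rw [← Complex.norm_mul_exp_arg_mul_I w]
    push_cast
    rw [add_mul, Complex.exp_add, mul_comm Complex.I]
    ring
  rw [h1, proj, Complex.re_ofReal_mul, Complex.im_ofReal_mul, Complex.exp_ofReal_mul_I_re,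
    Complex.exp_ofReal_mul_I_im, ← add_sub_assoc, Real.cos_sub]
  ring

lemma abs_proj_le (θ : ℝ) (z : ℂ) : |proj θ z| ≤ ‖z‖ := by
  have h := proj_rot θ 0 z
  simp only [Complex.ofReal_zero, mul_zero, Complex.exp_zero, one_mul, zero_add] at h
  rw [h, abs_mul, abs_of_nonneg (norm_nonneg z)]
  exact mul_le_of_le_one_right (norm_nonneg z) (Real.abs_cos_le_one _)

lemma arc1 {d : ℝ} (hd : 0 < d) (g : ℝ → ℝ≥0∞) :
    ∫⁻ t in Ioo (-d) d, g t ≤ ENNReal.ofReal d * ∫⁻ x in Ioo 0 π, g (d * Real.cos x) := by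
  have himg : Ioo (-d) d ⊆ (fun x => d * Real.cos x) '' Ioo 0 π := by
    intro t ht
    refine ⟨Real.arccos (t / d), ⟨?_, ?_⟩, ?_⟩
    · rw [Real.arccos_pos]
      rw [div_lt_one hd]; exact ht.2
    · have : 0 < Real.arccos (-(t / d)) := by
        rw [Real.arccos_pos, ← neg_div, div_lt_one hd]; linarith [ht.1]
      rw [Real.arccos_neg] at this
      linarith
    · simp only
      rw [Real.cos_arccos]
      · field_simp
      · rw [le_div_iff₀ hd]; linarith [ht.1]
      · rw [div_le_one hd]; exact ht.2.le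
  have hinj : InjOn (fun x => d * Real.cos x) (Ioo 0 π) := by
    intro x hx y hy hxy
    exact Real.injOn_cos ⟨hx.1.le, hx.2.le⟩ ⟨hy.1.le, hy.2.le⟩
      (mul_left_cancel₀ hd.ne' hxy)
  calc ∫⁻ t in Ioo (-d) d, g t ≤ ∫⁻ t in (fun x => d * Real.cos x) '' Ioo 0 π, g t :=
        lintegral_mono_set himg
    _ = ∫⁻ x in Ioo 0 π, ENNReal.ofReal (|d * (-Real.sin x)|) * g (d * Real.cos x) := by
        apply lintegral_image_eq_lintegral_abs_deriv_mul measurableSet_Ioo _ hinj
        intro x _
        exact ((Real.hasDerivAt_cos x).const_mul d).hasDerivWithinAt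
    _ ≤ ∫⁻ x in Ioo 0 π, ENNReal.ofReal d * g (d * Real.cos x) := by
        apply lintegral_mono
        intro x
        apply mul_le_mul_left
        apply ENNReal.ofReal_le_ofReal
        rw [abs_mul, abs_neg, abs_of_pos hd]
        nlinarith [Real.abs_sin_le_one x, abs_nonneg (Real.sin x)]
    _ = ENNReal.ofReal d * ∫⁻ x in Ioo 0 π, g (d * Real.cos x) :=
        lintegral_const_mul' _ _ ENNReal.ofReal_ne_top

lemma arc_shift (h : Real.Angle → ℝ≥0∞) (c : ℝ) :
    ∫⁻ x in Ioc 0 (2 * π), h ((x + c : ℝ) : Real.Angle) =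
      ∫⁻ x in Ioc 0 (2 * π), h (x : Real.Angle) := by
  have : Fact (0 < 2 * π) := ⟨by positivity⟩
  have h1 := AddCircle.lintegral_preimage (2 * π) 0 h
  have h2 := AddCircle.lintegral_preimage (2 * π) c h
  rw [zero_add] at h1
  have h3 : ∫⁻ x in Ioc 0 (2 * π), h ((x + c : ℝ) : Real.Angle) =
      ∫⁻ x in Ioc c (c + 2 * π), h (x : Real.Angle) := by
    rw [← lintegral_indicator measurableSet_Ioc, ← lintegral_indicator measurableSet_Ioc,
      ← lintegral_add_right_eq_self
        ((Ioc c (c + 2 * π)).indicator (fun x : ℝ => h (x : Real.Angle))) c]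
    congr 1
    funext x
    simp only [indicator, mem_Ioc]
    congr 1
    simp only [eq_iff_iff]
    constructor
    · rintro ⟨h1, h2⟩; constructor <;> linarith
    · rintro ⟨h1, h2⟩; constructor <;> linarith
  rw [h3]
  exact h2.trans h1.symm

lemma arc2 {d : ℝ} (hd : 0 < d) (g : ℝ → ℝ≥0∞) (c : ℝ) :
    ∫⁻ t in Ioo (-d) d, g t ≤
      ENNReal.ofReal (2 * π * d) * (∫⁻ x, g (d * Real.cos (x + c)) ∂unif) := by
  have h0 : ENNReal.ofReal (2 * π) ≠ 0 := by
    simp only [ne_eq, ENNReal.ofReal_eq_zero, not_le]; positivity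
  have h1 := arc_shift (fun a => g (d * Real.Angle.cos a)) c
  simp only [Real.Angle.cos_coe] at h1
  rw [unif, lintegral_smul_measure, h1, smul_eq_mul, ← mul_assoc,
    ENNReal.ofReal_mul (by positivity : (0:ℝ) ≤ 2 * π), mul_comm (ENNReal.ofReal (2 * π)),
    mul_assoc (ENNReal.ofReal d), ENNReal.mul_inv_cancel h0 ENNReal.ofReal_ne_top, mul_one]
  refine (arc1 hd g).trans ?_
  gcongr
  intro x hx
  exact ⟨hx.1, by linarith [hx.2, Real.pi_pos]⟩

lemma lintegral_inter_shift {A B : Set ℝ} (hA : MeasurableSet A) (hB : MeasurableSet B) :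
    ∫⁻ t, volume (A ∩ {s | s - t ∈ B}) = volume A * volume B := by
  have h1 : ∀ t : ℝ, volume (A ∩ {s | s - t ∈ B}) =
      ∫⁻ s, A.indicator 1 s * B.indicator 1 (s - t) := by
    intro t
    have hm : MeasurableSet (A ∩ {s | s - t ∈ B}) :=
      hA.inter ((measurable_id.sub_const t) hB)
    rw [← lintegral_indicator_one hm]
    congr 1
    funext s
    by_cases ha : s ∈ A <;> by_cases hb : s - t ∈ B <;> simp [indicator, ha, hb]
  simp only [h1]
  have hmA : Measurable (A.indicator (1 : ℝ → ℝ≥0∞)) := measurable_one.indicator hA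
  have hmB : Measurable (B.indicator (1 : ℝ → ℝ≥0∞)) := measurable_one.indicator hB
  rw [lintegral_lintegral_swap]
  · have h2 : ∀ s : ℝ, ∫⁻ t, A.indicator 1 s * B.indicator (1 : ℝ → ℝ≥0∞) (s - t) =
        A.indicator 1 s * volume B := by
      intro s
      rw [lintegral_const_mul _ (by fun_prop)]
      congr 1
      rw [lintegral_sub_left_eq_self (B.indicator (1 : ℝ → ℝ≥0∞)) s, lintegral_indicator_one hB]
    simp only [h2]
    rw [lintegral_mul_const _ hmA, lintegral_indicator_one hA]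
  · apply Measurable.aemeasurable
    fun_prop

/-- the overlap estimate -/
lemma overlap {θ a b : ℝ} {w : ℂ} {A B : Set ℝ} (hA : MeasurableSet A) (hB : MeasurableSet B)
    (hAa : A ⊆ Icc (-a) a) (hBb : B ⊆ Icc (-b) b) (hab : a + b < ‖w‖) (hw : 0 < ‖w‖) :
    volume A * volume B ≤ ENNReal.ofReal (2 * π * ‖w‖) *
      ∫⁻ x, volume (A ∩ {s | s - proj θ (Complex.exp (Complex.I * x) * w) ∈ B}) ∂unif := by
  rw [← lintegral_inter_shift hA hB]
  have h1 : ∫⁻ t, volume (A ∩ {s | s - t ∈ B}) =
      ∫⁻ t in Ioo (-‖w‖) ‖w‖, volume (A ∩ {s | s - t ∈ B}) := by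
    rw [← lintegral_indicator measurableSet_Ioo]
    congr 1
    funext t
    by_cases ht : t ∈ Ioo (-‖w‖) ‖w‖
    · rw [indicator_of_mem ht]
    · rw [indicator_of_notMem ht]
      have : A ∩ {s | s - t ∈ B} = ∅ := by
        rw [eq_empty_iff_forall_notMem]
        rintro s ⟨hs1, hs2⟩
        apply ht
        have h1 := hAa hs1
        have h2 := hBb hs2
        constructor
        · linarith [h1.1, h2.2]
        · linarith [h1.2, h2.1]
      rw [this, measure_empty]
  rw [h1]
  simp only [proj_rot]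
  exact arc2 hw (fun t => volume (A ∩ {s | s - t ∈ B})) _

end Pool.Agent.H52F
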