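import Mathlib

set_option autoImplicit false
set_option linter.unusedSectionVars false

open MeasureTheory Set Filter Topology
open scoped ENNReal Real

namespace Pool.Agent.H52F

/-- the analytic capacity: the supremum of `|f'(∞)|` over the functions `f` holomorphic off
`E` and bounded by one, where `f'(∞) = lim z (f z - f ∞)` -/
noncomputable def anCap (E : Set ℂ) : ℝ≥0∞ :=
  sSup {x : ℝ≥0∞ | ∃ (f : ℂ → ℂ) (c a : ℂ), DifferentiableOn ℂ f Eᶜ ∧
    (∀ z ∈ Eᶜ, ‖f z‖ ≤ 1) ∧ Tendsto (fun z : ℂ => z * (f z - c)) (cocompact ℂ) (𝓝 a) ∧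
    x = ‖a‖ₑ}

lemma measurable_pot (m : Measure ℂ) [IsFiniteMeasure m] :
    Measurable (fun x : ℂ => ∫⁻ y, ‖x - y‖ₑ⁻¹ ∂m) := by
  apply Measurable.lintegral_prod_right' (f := fun p : ℂ × ℂ => ‖p.1 - p.2‖ₑ⁻¹)
  fun_prop

/-- a compact set carrying a measure with bounded potential on it has bounded Cauchy transform -/
lemma bounded_pot_anCap {E K : Set ℂ} (hK : IsCompact K) (hKE : K ⊆ E) (m : Measure ℂ)
    [IsFiniteMeasure m] (hm : m K ≠ 0) {M : ℝ} (hM : 0 < M)
    (hb : ∀ x ∈ K, ∫⁻ y in K, ‖x - y‖ₑ⁻¹ ∂m ≤ ENNReal.ofReal M) :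
    ENNReal.ofReal ((2 * M)⁻¹ * m.real K) ≤ anCap E := by
  have hKne : K.Nonempty := by
    rw [nonempty_iff_ne_empty]
    rintro rfl
    exact hm measure_empty
  set N : ℂ := (((2 * M)⁻¹ : ℝ) : ℂ) with hN
  have hNn : ‖N‖ = (2 * M)⁻¹ := by
    rw [hN, Complex.norm_real, Real.norm_of_nonneg (by positivity)]
  apply le_sSup
  refine ⟨fun z => N * ∫ y in K, (z - y)⁻¹ ∂m, 0, N * (m.real K : ℂ), ?_, ?_, ?_, ?_⟩
  · -- differentiability
    intro z₀ hz₀
    have hz₀K : z₀ ∉ K := fun h => hz₀ (hKE h)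
    have hε : 0 < Metric.infDist z₀ K :=
      (hK.isClosed.notMem_iff_infDist_pos hKne).1 hz₀K
    set ε := Metric.infDist z₀ K with hεdef
    have hdist : ∀ z ∈ Metric.ball z₀ (ε / 2), ∀ y ∈ K, ε / 2 ≤ ‖z - y‖ := by
      intro z hz y hy
      have h1 : ε ≤ dist z₀ y := Metric.infDist_le_dist_of_mem hy
      have h2 : dist z₀ y ≤ dist z₀ z + dist z y := dist_triangle _ _ _
      rw [Metric.mem_ball, dist_comm] at hz
      rw [← dist_eq_norm]
      linarith
    have key := hasDerivAt_integral_of_dominated_loc_of_deriv_le (𝕜 := ℂ)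
      (μ := m.restrict K) (F := fun z y => (z - y)⁻¹)
      (F' := fun z y => -((z - y) ^ 2)⁻¹) (x₀ := z₀) (s := Metric.ball z₀ (ε / 2))
      (bound := fun _ => ((ε / 2) ^ 2)⁻¹)
      (Metric.ball_mem_nhds z₀ (by positivity)) ?_ ?_ ?_ ?_ ?_ ?_
    · exact ((key.2.const_mul N).differentiableAt).differentiableWithinAt
    · exact Eventually.of_forall fun z => by
        apply Measurable.aestronglyMeasurable; fun_prop
    · apply Integrable.mono' (g := fun _ => (ε / 2)⁻¹) (integrable_const _)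
      · apply Measurable.aestronglyMeasurable; fun_prop
      · rw [ae_restrict_iff' hK.measurableSet]
        refine Eventually.of_forall fun y hy => ?_
        rw [norm_inv]
        have := hdist z₀ (Metric.mem_ball_self (by positivity)) y hy
        gcongr
    · apply Measurable.aestronglyMeasurable; fun_prop
    · rw [ae_restrict_iff' hK.measurableSet]
      refine Eventually.of_forall fun y hy z hz => ?_
      rw [norm_neg, norm_inv, norm_pow]
      have := hdist z hz y hy
      gcongr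
    · exact integrable_const _
    · rw [ae_restrict_iff' hK.measurableSet]
      refine Eventually.of_forall fun y hy z hz => ?_
      have h1 := hdist z hz y hy
      have h2 : z - y ≠ 0 := by
        intro h
        rw [h, norm_zero] at h1
        linarith
      have h3 : HasDerivAt (fun x : ℂ => (x - y)⁻¹) (-1 / (z - y) ^ 2) z :=
        ((hasDerivAt_id' z).sub_const y).fun_inv h2
      rwa [neg_div, one_div] at h3
  · -- bound
    intro z hz
    have hzK : z ∉ K := fun h => hz (hKE h)
    obtain ⟨x, hxK, hx⟩ := hK.exists_infDist_eq_dist hKne z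
    have hnear : ∀ y ∈ K, ‖x - y‖ ≤ 2 * ‖z - y‖ := by
      intro y hy
      have h1 : dist z x ≤ dist z y := by
        rw [← hx]; exact Metric.infDist_le_dist_of_mem hy
      have h2 : dist x y ≤ dist x z + dist z y := dist_triangle _ _ _
      rw [dist_comm x z] at h2
      rw [← dist_eq_norm, ← dist_eq_norm]
      linarith
    have h1 : ∫⁻ y in K, ‖(z - y)⁻¹‖ₑ ∂m ≤ 2 * ENNReal.ofReal M := by
      calc ∫⁻ y in K, ‖(z - y)⁻¹‖ₑ ∂m ≤ ∫⁻ y in K, 2 * ‖x - y‖ₑ⁻¹ ∂m := by
            apply setLIntegral_mono' hK.measurableSet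
            intro y hy
            have hzy : z - y ≠ 0 := sub_ne_zero.2 (fun h => hzK (h ▸ hy))
            rw [enorm_inv hzy]
            have h2 : ‖x - y‖ₑ ≤ 2 * ‖z - y‖ₑ := by
              have := hnear y hy
              rw [← ofReal_norm, ← ofReal_norm,
                show (2 : ℝ≥0∞) = ENNReal.ofReal 2 by simp,
                ← ENNReal.ofReal_mul (by norm_num)]
              exact ENNReal.ofReal_le_ofReal this
            have h3 : (2 * ‖z - y‖ₑ)⁻¹ ≤ ‖x - y‖ₑ⁻¹ := ENNReal.inv_le_inv.2 h2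
            calc ‖z - y‖ₑ⁻¹ = 2 * (2 * ‖z - y‖ₑ)⁻¹ := by
                  rw [ENNReal.mul_inv (Or.inl (by norm_num)) (Or.inl (by norm_num)),
                    ← mul_assoc, ENNReal.mul_inv_cancel (by norm_num) (by norm_num), one_mul]
              _ ≤ 2 * ‖x - y‖ₑ⁻¹ := by gcongr
        _ = 2 * ∫⁻ y in K, ‖x - y‖ₑ⁻¹ ∂m := by
            rw [lintegral_const_mul]; fun_prop
        _ ≤ 2 * ENNReal.ofReal M := by gcongr; exact hb x hxK
    have h2 : ‖∫ y in K, (z - y)⁻¹ ∂m‖ ≤ 2 * M := by
      have h3 : ‖∫ y in K, (z - y)⁻¹ ∂m‖ₑ ≤ 2 * ENNReal.ofReal M :=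
        (enorm_integral_le_lintegral_enorm _).trans h1
      rw [← ofReal_norm] at h3
      have h4 : (2 * ENNReal.ofReal M) = ENNReal.ofReal (2 * M) := by
        rw [ENNReal.ofReal_mul (by norm_num)]; simp
      rw [h4] at h3
      exact (ENNReal.ofReal_le_ofReal_iff (by positivity)).1 h3
    simp only
    rw [norm_mul, hNn, inv_mul_le_iff₀ (by positivity)]
    linarith
  · -- limit
    obtain ⟨R, hR⟩ := hK.isBounded.exists_norm_le
    have hR0 : 0 ≤ R := by
      obtain ⟨x, hx⟩ := hKne
      exact (norm_nonneg x).trans (hR x hx)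
    simp only [sub_zero]
    have h1 : (fun z : ℂ => z * (N * ∫ y in K, (z - y)⁻¹ ∂m)) =
        fun z : ℂ => N * (z * ∫ y in K, (z - y)⁻¹ ∂m) := by
      funext z; ring
    rw [h1]
    apply Tendsto.const_mul
    rw [tendsto_iff_norm_sub_tendsto_zero]
    have hlim : Tendsto (fun z : ℂ => m.real K * (R / (‖z‖ - R))) (cocompact ℂ) (𝓝 0) := by
      rw [show (0:ℝ) = m.real K * 0 by simp]
      apply Tendsto.const_mul
      apply Tendsto.div_atTop tendsto_const_nhds
      exact tendsto_atTop_add_const_right _ _ tendsto_norm_cocompact_atTop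
    apply squeeze_zero' (Eventually.of_forall fun z => norm_nonneg _) _ hlim
    filter_upwards [tendsto_norm_cocompact_atTop.eventually_gt_atTop R] with z hz
    have hne : ∀ y ∈ K, z - y ≠ 0 := by
      intro y hy h
      have : z = y := sub_eq_zero.1 h
      have := hR y hy
      rw [← ‹z = y›] at this
      linarith
    have hlow : ∀ y ∈ K, ‖z‖ - R ≤ ‖z - y‖ := by
      intro y hy
      have h1 := norm_sub_norm_le z y
      have h2 := hR y hy
      linarith
    have hint : Integrable (fun y => (z - y)⁻¹) (m.restrict K) := by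
      apply Integrable.mono' (g := fun _ => (‖z‖ - R)⁻¹) (integrable_const _)
      · apply Measurable.aestronglyMeasurable; fun_prop
      · rw [ae_restrict_iff' hK.measurableSet]
        refine Eventually.of_forall fun y hy => ?_
        rw [norm_inv]
        have := hlow y hy
        have h0 : 0 < ‖z‖ - R := by linarith
        gcongr
    have h2 : z * ∫ y in K, (z - y)⁻¹ ∂m - (m.real K : ℂ) =
        ∫ y in K, (z * (z - y)⁻¹ - 1) ∂m := by
      rw [integral_sub (hint.const_mul z) (integrable_const _), integral_const_mul]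
      simp
    rw [h2]
    have h3 : ∀ᵐ y ∂(m.restrict K), ‖z * (z - y)⁻¹ - 1‖ ≤ R / (‖z‖ - R) := by
      rw [ae_restrict_iff' hK.measurableSet]
      refine Eventually.of_forall fun y hy => ?_
      have h4 : z * (z - y)⁻¹ - 1 = y * (z - y)⁻¹ := by
        have := hne y hy
        field_simp
        ring
      rw [h4, norm_mul, norm_inv, ← div_eq_mul_inv]
      have h5 := hlow y hy
      have h6 := hR y hy
      have h0 : 0 < ‖z‖ - R := by linarith
      gcongr
    have h4 := norm_integral_le_of_norm_le_const h3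
    simp only [measureReal_restrict_apply_univ] at h4
    linarith [h4]
  · have h0 : 0 ≤ (2 * M)⁻¹ * m.real K := by positivity
    have h1 : ‖N * (m.real K : ℂ)‖ = (2 * M)⁻¹ * m.real K := by
      rw [norm_mul, hNn, Complex.norm_real, Real.norm_of_nonneg (by positivity)]
    rw [← ofReal_norm, h1]

/-- finite energy implies positive analytic capacity, with constants -/
theorem energy_anCap {E : Set ℂ} (hE : IsCompact E) (m : Measure ℂ) [IsProbabilityMeasure m]
    (hmE : m Eᶜ = 0) {B : ℝ} (hB : 0 < B)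
    (hen : ∫⁻ x, ∫⁻ y, ‖x - y‖ₑ⁻¹ ∂m ∂m ≤ ENNReal.ofReal B) :
    ENNReal.ofReal ((16 * B)⁻¹) ≤ anCap E := by
  set U : ℂ → ℝ≥0∞ := fun x => ∫⁻ y, ‖x - y‖ₑ⁻¹ ∂m with hU
  have hUm : Measurable U := measurable_pot m
  have hmk : m {x | ENNReal.ofReal (2 * B) < U x} ≤ ENNReal.ofReal (1 / 2) := by
    have h1 := mul_meas_ge_le_lintegral hUm (μ := m) (ENNReal.ofReal (2 * B))
    have h2 : m {x | ENNReal.ofReal (2 * B) < U x} ≤ m {x | ENNReal.ofReal (2 * B) ≤ U x} := by
      apply measure_mono
      intro x hx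
      rw [mem_ofPred_eq] at hx ⊢
      exact hx.le
    have h3 : ENNReal.ofReal (2 * B) * m {x | ENNReal.ofReal (2 * B) < U x} ≤
        ENNReal.ofReal (2 * B) * ENNReal.ofReal (1 / 2) := by
      rw [← ENNReal.ofReal_mul (by positivity)]
      calc ENNReal.ofReal (2 * B) * m {x | ENNReal.ofReal (2 * B) < U x}
          ≤ ENNReal.ofReal (2 * B) * m {x | ENNReal.ofReal (2 * B) ≤ U x} := by gcongr
        _ ≤ ENNReal.ofReal B := h1.trans hen
        _ = ENNReal.ofReal (2 * B * (1 / 2)) := by congr 1; ring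
    have h4 : ENNReal.ofReal (2 * B) ≠ 0 := by
      simp only [ne_eq, ENNReal.ofReal_eq_zero, not_le]; positivity
    exact (ENNReal.mul_le_mul_iff_right h4 ENNReal.ofReal_ne_top).1 h3
  have hF : MeasurableSet ({x | U x ≤ ENNReal.ofReal (2 * B)} ∩ E) :=
    (measurableSet_le hUm measurable_const).inter hE.measurableSet
  have hmF : ENNReal.ofReal (1 / 4) < m ({x | U x ≤ ENNReal.ofReal (2 * B)} ∩ E) := by
    have h1 : (1 : ℝ≥0∞) ≤ m ({x | U x ≤ ENNReal.ofReal (2 * B)} ∩ E) +
        ENNReal.ofReal (1 / 2) := by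
      calc (1 : ℝ≥0∞) = m univ := measure_univ.symm
        _ ≤ m (({x | U x ≤ ENNReal.ofReal (2 * B)} ∩ E) ∪
            ({x | ENNReal.ofReal (2 * B) < U x} ∪ Eᶜ)) := by
            apply measure_mono
            intro x _
            by_cases hx : U x ≤ ENNReal.ofReal (2 * B)
            · by_cases hxE : x ∈ E
              · left; exact ⟨hx, hxE⟩
              · right; right; exact hxE
            · right; left; exact not_le.1 hx
        _ ≤ m ({x | U x ≤ ENNReal.ofReal (2 * B)} ∩ E) +
            (m {x | ENNReal.ofReal (2 * B) < U x} + m Eᶜ) :=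
            (measure_union_le _ _).trans (by gcongr; exact measure_union_le _ _)
        _ ≤ m ({x | U x ≤ ENNReal.ofReal (2 * B)} ∩ E) + ENNReal.ofReal (1 / 2) := by
            rw [hmE, add_zero]; gcongr
    by_contra h
    rw [not_lt] at h
    have h2 : (1 : ℝ≥0∞) ≤ ENNReal.ofReal (1 / 4) + ENNReal.ofReal (1 / 2) :=
      h1.trans (by gcongr)
    rw [← ENNReal.ofReal_add (by norm_num) (by norm_num), ENNReal.one_le_ofReal] at h2
    norm_num at h2
  obtain ⟨K, hKF, hK, hmK⟩ := hF.exists_lt_isCompact_of_ne_top (measure_ne_top m _) hmF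
  have hmK0 : m K ≠ 0 := (lt_of_le_of_lt bot_le hmK).ne'
  refine le_trans ?_ (bounded_pot_anCap hK (fun x hx => (hKF hx).2) m hmK0
    (M := 2 * B) (by positivity) ?_)
  · apply ENNReal.ofReal_le_ofReal
    have h1 : 1 / 4 ≤ m.real K := by
      rw [measureReal_def, ← ENNReal.ofReal_le_iff_le_toReal (measure_ne_top _ _)]
      exact hmK.le
    calc (16 * B)⁻¹ = (2 * (2 * B))⁻¹ * (1 / 4) := by
          rw [← mul_assoc]; field_simp; norm_num
      _ ≤ (2 * (2 * B))⁻¹ * m.real K := by gcongr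
  · intro x hx
    exact (setLIntegral_le_lintegral _ _).trans (hKF hx).1

end Pool.Agent.H52F
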