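import Pool.Agent.H52F.Prod
import Pool.Agent.H52F.Arc

set_option autoImplicit false
set_option linter.unusedSectionVars false

open MeasureTheory Set Filter Topology
open scoped ENNReal Real

namespace Pool.Agent.H52F

variable {ι : Type*}

/-- the product of the uniform measures -/
noncomputable def PP (ι : Type*) : Measure (ι → ℝ) := Measure.infinitePi (fun _ : ι => unif)

instance : IsProbabilityMeasure (PP ι) := by unfold PP; infer_instance

/-- displacement of the child `u` of `v` in the direction `θ` -/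
noncomputable def sh (c : List ℕ → ι) (z : List ℕ → ℂ) (θ : ℝ) (φ : ι → ℝ) (v : List ℕ)
    (u : ℕ) : ℝ :=
  proj θ (Complex.exp (Complex.I * φ (c v)) * z (v ++ [u]))

/-- covers of the projections -/
noncomputable def cov (c : List ℕ → ι) (b : List ℕ → ℕ) (z : List ℕ → ℂ) (ρ : List ℕ → ℝ)
    (θ : ℝ) (φ : ι → ℝ) : ℕ → List ℕ → Set ℝ
  | 0, v => Icc (-ρ v) (ρ v)
  | n + 1, v => ⋃ u : Fin (b v), {s | s - sh c z θ φ v u ∈ cov c b z ρ θ φ n (v ++ [u.1])}

variable (c : List ℕ → ι) (b : List ℕ → ℕ) (z : List ℕ → ℂ) (ρ : List ℕ → ℝ)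

lemma abs_sh_le (θ : ℝ) (φ : ι → ℝ) (v : List ℕ) (u : ℕ) :
    |sh c z θ φ v u| ≤ ‖z (v ++ [u])‖ := by
  have h := abs_proj_le θ (Complex.exp (Complex.I * φ (c v)) * z (v ++ [u]))
  have h2 : ‖Complex.exp (Complex.I * φ (c v)) * z (v ++ [u])‖ = ‖z (v ++ [u])‖ := by
    rw [norm_mul, mul_comm Complex.I, Complex.norm_exp_ofReal_mul_I, one_mul]
  rw [h2] at h
  exact h

lemma cov_subset (hin : ∀ v, ∀ u < b v, ‖z (v ++ [u])‖ + ρ (v ++ [u]) ≤ ρ v)
    (θ : ℝ) (φ : ι → ℝ) (n : ℕ) (v : List ℕ) :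
    cov c b z ρ θ φ n v ⊆ Icc (-ρ v) (ρ v) := by
  induction n generalizing v with
  | zero => exact subset_rfl
  | succ n ih =>
    intro s hs
    rw [cov, mem_iUnion] at hs
    obtain ⟨u, hu⟩ := hs
    have h1 := ih _ hu
    have h2 := abs_le.1 (abs_sh_le c z θ φ v u)
    have h3 := hin v u u.2
    constructor
    · linarith [h1.1, h2.1]
    · linarith [h1.2, h2.2]

lemma cov_anti (hin : ∀ v, ∀ u < b v, ‖z (v ++ [u])‖ + ρ (v ++ [u]) ≤ ρ v)
    (θ : ℝ) (φ : ι → ℝ) (n : ℕ) (v : List ℕ) :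
    cov c b z ρ θ φ (n + 1) v ⊆ cov c b z ρ θ φ n v := by
  induction n generalizing v with
  | zero => exact cov_subset c b z ρ hin θ φ 1 v
  | succ n ih =>
    intro s hs
    rw [cov, mem_iUnion] at hs ⊢
    obtain ⟨u, hu⟩ := hs
    exact ⟨u, ih _ hu⟩

lemma measurable_sh (v : List ℕ) (u : ℕ) :
    Measurable (fun p : ℝ × (ι → ℝ) => sh c z p.1 p.2 v u) := by
  unfold sh proj
  fun_prop

lemma measurableSet_cov_joint (n : ℕ) (v : List ℕ) :
    MeasurableSet {p : (ℝ × (ι → ℝ)) × ℝ | p.2 ∈ cov c b z ρ p.1.1 p.1.2 n v} := by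
  induction n generalizing v with
  | zero =>
    have : {p : (ℝ × (ι → ℝ)) × ℝ | p.2 ∈ cov c b z ρ p.1.1 p.1.2 0 v} =
        (fun p => p.2) ⁻¹' Icc (-ρ v) (ρ v) := rfl
    rw [this]
    exact measurable_snd measurableSet_Icc
  | succ n ih =>
    have : {p : (ℝ × (ι → ℝ)) × ℝ | p.2 ∈ cov c b z ρ p.1.1 p.1.2 (n + 1) v} =
        ⋃ u : Fin (b v), (fun p : (ℝ × (ι → ℝ)) × ℝ => (p.1, p.2 - sh c z p.1.1 p.1.2 v u)) ⁻¹'
          {p : (ℝ × (ι → ℝ)) × ℝ | p.2 ∈ cov c b z ρ p.1.1 p.1.2 n (v ++ [u.1])} := by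
      ext p
      simp only [cov, mem_ofPred_eq, mem_iUnion, mem_preimage]
    rw [this]
    apply MeasurableSet.iUnion
    intro u
    apply (measurable_fst.prodMk _) (ih _)
    exact measurable_snd.sub ((measurable_sh c z v u).comp measurable_fst)

lemma measurableSet_cov (θ : ℝ) (φ : ι → ℝ) (n : ℕ) (v : List ℕ) :
    MeasurableSet (cov c b z ρ θ φ n v) := by
  have := measurableSet_cov_joint c b z ρ n v
  exact (measurable_prodMk_left (x := (θ, φ))) this

lemma measurable_vol (n : ℕ) (v : List ℕ) :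
    Measurable (fun p : ℝ × (ι → ℝ) => volume (cov c b z ρ p.1 p.2 n v)) :=
  measurable_measure_prodMk_left (measurableSet_cov_joint c b z ρ n v)

lemma measurable_vol' (θ : ℝ) (n : ℕ) (v : List ℕ) :
    Measurable (fun φ : ι → ℝ => volume (cov c b z ρ θ φ n v)) :=
  (measurable_vol c b z ρ n v).comp (measurable_const.prodMk measurable_id)

lemma vol_le (hin : ∀ v, ∀ u < b v, ‖z (v ++ [u])‖ + ρ (v ++ [u]) ≤ ρ v)
    (θ : ℝ) (φ : ι → ℝ) (n : ℕ) (v : List ℕ) :
    volume (cov c b z ρ θ φ n v) ≤ ENNReal.ofReal (2 * ρ v) := by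
  refine (measure_mono (cov_subset c b z ρ hin θ φ n v)).trans ?_
  rw [Real.volume_Icc]
  apply ENNReal.ofReal_le_ofReal
  linarith

/-- `cov` depends only on the angles at the colours of the descendants -/
lemma cov_congr (θ : ℝ) (φ φ' : ι → ℝ) (n : ℕ) (v : List ℕ)
    (h : ∀ w, φ (c (v ++ w)) = φ' (c (v ++ w))) :
    cov c b z ρ θ φ n v = cov c b z ρ θ φ' n v := by
  induction n generalizing v with
  | zero => rfl
  | succ n ih =>
    rw [cov, cov]
    have h0 : φ (c v) = φ' (c v) := by simpa using h []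
    have h1 : ∀ u : Fin (b v), sh c z θ φ v u = sh c z θ φ' v u := by
      intro u; simp only [sh, h0]
    have h2 : ∀ u : Fin (b v), cov c b z ρ θ φ n (v ++ [u.1]) =
        cov c b z ρ θ φ' n (v ++ [u.1]) := by
      intro u
      apply ih
      intro w
      have := h ([u.1] ++ w)
      simpa [List.append_assoc] using this
    simp only [h1, h2]

/-- two vertices with the same data below have the same covers -/
lemma cov_same (θ : ℝ) (φ : ι → ℝ) (n : ℕ) (v v' : List ℕ)
    (h : ∀ w, b (v ++ w) = b (v' ++ w) ∧ ρ (v ++ w) = ρ (v' ++ w) ∧ c (v ++ w) = c (v' ++ w) ∧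
      ∀ u, z (v ++ w ++ [u]) = z (v' ++ w ++ [u])) :
    cov c b z ρ θ φ n v = cov c b z ρ θ φ n v' := by
  induction n generalizing v v' with
  | zero =>
    have := (h []).2.1
    simp only [List.append_nil] at this
    rw [cov, cov, this]
  | succ n ih =>
    have h0 := h []
    simp only [List.append_nil] at h0
    obtain ⟨hb, -, hc, hz⟩ := h0
    have h2 : ∀ u : ℕ, cov c b z ρ θ φ n (v ++ [u]) = cov c b z ρ θ φ n (v' ++ [u]) := by
      intro u
      apply ih
      intro w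
      have := h ([u] ++ w)
      simpa [List.append_assoc] using this
    rw [cov, cov]
    ext s
    simp only [mem_iUnion, mem_ofPred_eq]
    constructor
    · rintro ⟨⟨u, hub⟩, hu⟩
      refine ⟨⟨u, by rw [← hb]; exact hub⟩, ?_⟩
      simp only [sh, ← hc, ← hz, ← h2] at hu ⊢
      exact hu
    · rintro ⟨⟨u, hub⟩, hu⟩
      refine ⟨⟨u, by rw [hb]; exact hub⟩, ?_⟩
      simp only [sh, hc, hz, h2] at hu ⊢
      exact hu

/-- expected length of the covers -/
noncomputable def qq (θ : ℝ) (n : ℕ) (v : List ℕ) : ℝ≥0∞ :=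
  ∫⁻ φ, volume (cov c b z ρ θ φ n v) ∂(PP ι)

lemma measure_union_pair {κ : Type*} [Fintype κ] [DecidableEq κ] (B : κ → Set ℝ)
    (hB : ∀ u, MeasurableSet (B u)) {i j : κ} (hij : i ≠ j) :
    volume (⋃ u, B u) + volume (B i ∩ B j) ≤ ∑ u, volume (B u) := by
  have h1 : (⋃ u, B u) ⊆ (B i ∪ B j) ∪ ⋃ u ∈ ((Finset.univ.erase i).erase j), B u := by
    intro s hs
    obtain ⟨u, hu⟩ := mem_iUnion.1 hs
    by_cases hui : u = i
    · left; left; exact hui ▸ hu
    by_cases huj : u = j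
    · left; right; exact huj ▸ hu
    right
    simp only [mem_iUnion]
    exact ⟨u, by simp [hui, huj], hu⟩
  have h2 : volume (⋃ u, B u) ≤ volume (B i ∪ B j) +
      ∑ u ∈ ((Finset.univ.erase i).erase j), volume (B u) := by
    refine (measure_mono h1).trans ((measure_union_le _ _).trans ?_)
    gcongr
    exact measure_biUnion_finset_le _ _
  calc volume (⋃ u, B u) + volume (B i ∩ B j)
      ≤ (volume (B i ∪ B j) + ∑ u ∈ ((Finset.univ.erase i).erase j), volume (B u)) +
        volume (B i ∩ B j) := by gcongr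
    _ = (volume (B i ∪ B j) + volume (B i ∩ B j)) +
        ∑ u ∈ ((Finset.univ.erase i).erase j), volume (B u) := by ring
    _ = (volume (B i) + volume (B j)) +
        ∑ u ∈ ((Finset.univ.erase i).erase j), volume (B u) := by
        rw [measure_union_add_inter _ (hB j)]
    _ = ∑ u, volume (B u) := by
        rw [add_assoc, Finset.add_sum_erase _ (fun u => volume (B u)) (by simp [hij.symm]),
          Finset.add_sum_erase _ (fun u => volume (B u)) (by simp)]

lemma volume_shift (A : Set ℝ) (t : ℝ) : volume {s | s - t ∈ A} = volume A := by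
  have : {s | s - t ∈ A} = (fun s => s + (-t)) ⁻¹' A := by
    ext s; simp [sub_eq_add_neg]
  rw [this, measure_preimage_add_right]

lemma volume_shift_pair (A B : Set ℝ) (p p' : ℝ) :
    volume ({s | s - p ∈ A} ∩ {s | s - p' ∈ B}) = volume (A ∩ {s | s - (p' - p) ∈ B}) := by
  rw [← volume_shift (A ∩ {s | s - (p' - p) ∈ B}) p]
  congr 1
  ext s
  simp only [mem_inter_iff, mem_ofPred_eq, sub_sub_sub_cancel_right]

end Pool.Agent.H52F
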