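import Pool.Agent.H52F.Geo

set_option autoImplicit false
set_option linter.unusedSectionVars false
set_option linter.unusedVariables false

open MeasureTheory Set Filter Topology
open scoped ENNReal Real

namespace Pool.Agent.H52F

variable {ι : Type*}
variable {c : List ℕ → ι} {b : List ℕ → ℕ} {z : List ℕ → ℂ} {ρ : List ℕ → ℝ} {δ κ : ℝ}

lemma exists_child (hin : ∀ v, ∀ u < b v, ‖z (v ++ [u])‖ + ρ (v ++ [u]) ≤ ρ v)
    (θ : ℝ) (φ : ι → ℝ) (p : List ℕ × ℝ) (h : ∀ n, p.2 ∈ cov c b z ρ θ φ n p.1) :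
    ∃ u, u < b p.1 ∧ ∀ n, p.2 - sh c z θ φ p.1 u ∈ cov c b z ρ θ φ n (p.1 ++ [u]) := by
  by_contra hcon
  push Not at hcon
  have h1 : ∀ u : Fin (b p.1), ∃ n,
      p.2 - sh c z θ φ p.1 u ∉ cov c b z ρ θ φ n (p.1 ++ [u.1]) := fun u => hcon u u.2
  choose N hN using h1
  have hmono : ∀ v, Antitone (fun n => cov c b z ρ θ φ n v) := fun v =>
    antitone_nat_of_succ_le fun n => cov_anti c b z ρ hin θ φ n v
  have h2 := h (Finset.univ.sup N + 1)
  rw [cov, mem_iUnion] at h2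
  obtain ⟨u, hu⟩ := h2
  exact hN u (hmono _ (Finset.le_sup (Finset.mem_univ u)) hu)

lemma shift_mem_Br (v : List ℕ) (σ : ℕ → ℕ) (hσ : σ ∈ Br b v) (n : ℕ) :
    (fun m => σ (n + m)) ∈ Br b (v ++ cut σ n) := by
  induction n with
  | zero => simpa [cut] using hσ
  | succ n ih =>
    have h1 := ((mem_Br_iff b _ _).1 ih).2
    have h2 : tl (fun m => σ (n + m)) = fun m => σ (n + 1 + m) := by
      funext m; simp only [tl]; congr 1; ring
    rw [h2] at h1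
    have h3 : v ++ cut σ n ++ [(fun m => σ (n + m)) 0] = v ++ cut σ (n + 1) := by
      rw [List.append_assoc]; rfl
    rwa [h3] at h1

lemma proj_pt_iter (hρ : ∀ v, 0 < ρ v)
    (hin : ∀ v, ∀ u < b v, ‖z (v ++ [u])‖ + ρ (v ++ [u]) ≤ ρ v) (θ : ℝ) (φ : ι → ℝ)
    (v : List ℕ) (σ : ℕ → ℕ) (hσ : σ ∈ Br b v) (n : ℕ) :
    proj θ (pt c z φ v σ) = ∑ k ∈ Finset.range n, sh c z θ φ (v ++ cut σ k) (σ k) +
      proj θ (pt c z φ (v ++ cut σ n) (fun m => σ (n + m))) := by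
  induction n with
  | zero => simp [cut]
  | succ n ih =>
    rw [ih, Finset.sum_range_succ, pt_succ hρ hin φ _ _ (shift_mem_Br v σ hσ n), proj_add, sh]
    have h2 : tl (fun m => σ (n + m)) = fun m => σ (n + 1 + m) := by
      funext m; simp only [tl]; congr 1; ring
    have h3 : v ++ cut σ n ++ [(fun m => σ (n + m)) 0] = v ++ cut σ (n + 1) := by
      rw [List.append_assoc]; rfl
    rw [h2, h3]
    have h4 : v ++ cut σ n ++ [σ n] = v ++ cut σ (n + 1) := by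
      rw [List.append_assoc]; rfl
    rw [h4]
    ring

/-- the projection is the intersection of the covers -/
lemma iInter_cov (hρ : ∀ v, 0 < ρ v) (hκ0 : 0 ≤ κ) (hκ : κ < 1)
    (hin : ∀ v, ∀ u < b v, ‖z (v ++ [u])‖ + ρ (v ++ [u]) ≤ ρ v)
    (hsh : ∀ v, ∀ u < b v, ρ (v ++ [u]) ≤ κ * ρ v) (θ : ℝ) (φ : ι → ℝ) (v : List ℕ) :
    proj θ '' (pt c z φ v '' Br b v) = ⋂ n, cov c b z ρ θ φ n v := by
  apply Subset.antisymm
  · rintro _ ⟨_, ⟨σ, hσ, rfl⟩, rfl⟩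
    rw [mem_iInter]
    exact fun n => proj_mem_cov hρ hin θ φ n v σ hσ
  · intro s hs
    rw [mem_iInter] at hs
    -- states
    let St := {p : List ℕ × ℝ // ∀ n, p.2 ∈ cov c b z ρ θ φ n p.1}
    have hch : ∀ p : St, ∃ u, u < b p.1.1 ∧ ∀ n,
        p.1.2 - sh c z θ φ p.1.1 u ∈ cov c b z ρ θ φ n (p.1.1 ++ [u]) :=
      fun p => exists_child hin θ φ p.1 p.2
    choose dg hdg1 hdg2 using hch
    let nx : St → St := fun p => ⟨(p.1.1 ++ [dg p], p.1.2 - sh c z θ φ p.1.1 (dg p)), hdg2 p⟩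
    let st : ℕ → St := fun n => Nat.rec ⟨(v, s), hs⟩ (fun _ p => nx p) n
    let σ : ℕ → ℕ := fun n => dg (st n)
    have hst : ∀ n, (st (n + 1)) = nx (st n) := fun n => rfl
    have h1 : ∀ n, (st n).1.1 = v ++ cut σ n := by
      intro n
      induction n with
      | zero => simp [cut, st]
      | succ n ih =>
        rw [hst, cut, ← List.append_assoc, ← ih]
    have h2 : ∀ n, (st n).1.2 = s - ∑ k ∈ Finset.range n, sh c z θ φ (v ++ cut σ k) (σ k) := by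
      intro n
      induction n with
      | zero => simp [st]
      | succ n ih =>
        rw [hst, Finset.sum_range_succ, ← h1 n]
        change (st n).1.2 - sh c z θ φ (st n).1.1 (dg (st n)) = _
        rw [ih]
        ring
    have hσ : σ ∈ Br b v := by
      intro n
      rw [← h1 n]
      exact hdg1 (st n)
    refine ⟨pt c z φ v σ, ⟨σ, hσ, rfl⟩, ?_⟩
    have h3 : ∀ n, |s - proj θ (pt c z φ v σ)| ≤ κ ^ n * (2 * ρ v) := by
      intro n
      have e1 := proj_pt_iter (c := c) hρ hin θ φ v σ hσ n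
      have e2 := (st n).2 0
      rw [cov, h1 n, h2 n] at e2
      have e3 := (abs_proj_le θ (pt c z φ (v ++ cut σ n) (fun m => σ (n + m)))).trans
        (norm_pt_le (c := c) hρ hin φ _ _ (shift_mem_Br v σ hσ n))
      have e4 := radius_le hκ0 hsh v σ hσ n
      rw [e1]
      have e5 := abs_le.1 e3
      rw [abs_le]
      constructor
      · nlinarith [e2.1, e5.2]
      · nlinarith [e2.2, e5.1]
    have h4 : Tendsto (fun n : ℕ => κ ^ n * (2 * ρ v)) atTop (𝓝 0) := by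
      rw [show (0:ℝ) = 0 * (2 * ρ v) by ring]
      exact (tendsto_pow_atTop_nhds_zero_of_lt_one hκ0 hκ).mul_const _
    have h5 : |s - proj θ (pt c z φ v σ)| ≤ 0 := ge_of_tendsto' h4 h3
    have h6 := abs_eq_zero.1 (le_antisymm h5 (abs_nonneg _))
    linarith

/-- the Favard length, as in the frozen statement -/
noncomputable def favard (E : Set ℂ) : ℝ≥0∞ :=
  ∫⁻ θ in Ioc (0:ℝ) π, volume ((fun w : ℂ => w.re * Real.cos θ + w.im * Real.sin θ) '' E)

lemma volume_proj_eq (hρ : ∀ v, 0 < ρ v) (hκ0 : 0 ≤ κ) (hκ : κ < 1)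
    (hin : ∀ v, ∀ u < b v, ‖z (v ++ [u])‖ + ρ (v ++ [u]) ≤ ρ v)
    (hsh : ∀ v, ∀ u < b v, ρ (v ++ [u]) ≤ κ * ρ v) (θ : ℝ) (φ : ι → ℝ) (v : List ℕ) :
    volume (proj θ '' (pt c z φ v '' Br b v)) = ⨅ n, volume (cov c b z ρ θ φ n v) := by
  rw [iInter_cov hρ hκ0 hκ hin hsh θ φ v]
  apply Antitone.measure_iInter
  · exact antitone_nat_of_succ_le fun n => cov_anti c b z ρ hin θ φ n v
  · exact fun n => (measurableSet_cov c b z ρ θ φ n v).nullMeasurableSet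
  · exact ⟨0, ne_top_of_le_ne_top ENNReal.ofReal_ne_top (vol_le c b z ρ hin θ φ 0 v)⟩

lemma favard_eq (hρ : ∀ v, 0 < ρ v) (hκ0 : 0 ≤ κ) (hκ : κ < 1)
    (hin : ∀ v, ∀ u < b v, ‖z (v ++ [u])‖ + ρ (v ++ [u]) ≤ ρ v)
    (hsh : ∀ v, ∀ u < b v, ρ (v ++ [u]) ≤ κ * ρ v) (φ : ι → ℝ) :
    favard (pt c z φ [] '' Br b []) =
      ∫⁻ θ in Ioc (0:ℝ) π, ⨅ n, volume (cov c b z ρ θ φ n []) := by
  unfold favard
  apply lintegral_congr
  intro θ
  exact volume_proj_eq hρ hκ0 hκ hin hsh θ φ []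

lemma measurable_W : Measurable (fun p : ℝ × (ι → ℝ) =>
    ⨅ n, volume (cov c b z ρ p.1 p.2 n [])) :=
  Measurable.iInf fun n => measurable_vol c b z ρ n []

lemma measurable_favard (hρ : ∀ v, 0 < ρ v) (hκ0 : 0 ≤ κ) (hκ : κ < 1)
    (hin : ∀ v, ∀ u < b v, ‖z (v ++ [u])‖ + ρ (v ++ [u]) ≤ ρ v)
    (hsh : ∀ v, ∀ u < b v, ρ (v ++ [u]) ≤ κ * ρ v) :
    Measurable (fun φ : ι → ℝ => favard (pt c z φ [] '' Br b [])) := by
  simp only [favard_eq hρ hκ0 hκ hin hsh]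
  exact Measurable.lintegral_prod_right' (f := fun p : (ι → ℝ) × ℝ =>
    ⨅ n, volume (cov c b z ρ p.2 p.1 n [])) (measurable_W.comp measurable_swap)

end Pool.Agent.H52F
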