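import Mathlib

set_option autoImplicit false
set_option linter.unusedSectionVars false

open Set Filter Topology
open scoped Real

namespace Pool.Agent.H52F

lemma flow_step {k N : ℕ} (hk : k ≤ N) (q E : Fin k → ℝ) (d : Fin k → Fin k → ℝ)
    (hq : ∀ u, 0 ≤ q u) {Qv : ℝ}
    (hQ : 0 < Qv) (hd : ∀ i j, i ≠ j → 0 < d i j) (hQS : Qv ≤ ∑ u, q u)
    (hpair : ∀ i j, i ≠ j → Qv + q i * q j / (2 * π * d i j) ≤ ∑ u, q u)
    (hE : ∀ u, 0 < q u → E u ≤ 2 * π * N ^ 2 / q u) :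
    ∑ i, ∑ j, (q i / ∑ w, q w) * ((q j / ∑ w, q w) * (if i = j then E i else 1 / d i j)) ≤
      2 * π * N ^ 2 / Qv := by
  set S := ∑ u, q u with hS
  have hSpos : 0 < S := lt_of_lt_of_le hQ hQS
  set C : ℝ := 2 * π * N ^ 2 with hC
  have hC0 : 0 ≤ C := by positivity
  have hpi := Real.pi_pos
  set D := 2 * π * (S - Qv) / S ^ 2 with hD
  have hSQ : 0 ≤ S - Qv := by linarith
  have hD0 : 0 ≤ D := by positivity
  have h1 : ∀ i j, (q i / S) * ((q j / S) * (if i = j then E i else 1 / d i j)) ≤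
      (if i = j then C / S ^ 2 * q i else 0) + D := by
    intro i j
    split_ifs with h
    · subst h
      have : q i / S * (q i / S * E i) ≤ C / S ^ 2 * q i := by
        rcases (hq i).eq_or_lt with h | h
        · rw [← h]; simp
        · have := hE i h
          calc q i / S * (q i / S * E i) ≤ q i / S * (q i / S * (C / q i)) := by gcongr
            _ = C / S ^ 2 * q i := by field_simp
      linarith
    · rw [zero_add]
      have h2 := hpair i j h
      have h3 : q i * q j / (2 * π * d i j) ≤ S - Qv := by linarith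
      have hdp := hd i j h
      rw [div_le_iff₀ (by positivity)] at h3
      have h4 : q i / S * (q j / S * (1 / d i j)) = q i * q j / (S ^ 2 * d i j) := by
        field_simp
      rw [h4, hD, div_le_div_iff₀ (by positivity) (by positivity)]
      nlinarith [sq_nonneg S]
  have h2 : ∑ i, ∑ j, (q i / S) * ((q j / S) * (if i = j then E i else 1 / d i j)) ≤
      C / S + (N : ℝ) ^ 2 * D := by
    calc ∑ i, ∑ j, (q i / S) * ((q j / S) * (if i = j then E i else 1 / d i j))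
        ≤ ∑ i, ∑ j, ((if i = j then C / S ^ 2 * q i else 0) + D) :=
          Finset.sum_le_sum fun i _ => Finset.sum_le_sum fun j _ => h1 i j
      _ = C / S + (k : ℝ) ^ 2 * D := by
          simp only [Finset.sum_add_distrib, Finset.sum_ite_eq, Finset.mem_univ, if_true,
            Finset.sum_const, Finset.card_univ, Fintype.card_fin, nsmul_eq_mul,
            ← Finset.mul_sum, ← hS]
          field_simp
      _ ≤ C / S + (N : ℝ) ^ 2 * D := by gcongr
  have h3 : (N : ℝ) ^ 2 * D = C * (S - Qv) / S ^ 2 := by rw [hD, hC]; ring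
  have h5 : C / S + C * (S - Qv) / S ^ 2 ≤ C / Qv := by
    have h6 : C / Qv - (C / S + C * (S - Qv) / S ^ 2) = C * (S - Qv) ^ 2 / (Qv * S ^ 2) := by
      field_simp
      ring
    have h7 : 0 ≤ C * (S - Qv) ^ 2 / (Qv * S ^ 2) := by positivity
    linarith
  rw [h3] at h2
  linarith

/-- weights of the flow -/
noncomputable def wt (b : List ℕ → ℕ) (Q : List ℕ → ℝ) (v : List ℕ) (u : ℕ) : ℝ :=
  Q (v ++ [u]) / ∑ w : Fin (b v), Q (v ++ [w.1])

/-- the energies of the flow -/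
noncomputable def En (b : List ℕ → ℕ) (z : List ℕ → ℂ) (ρ Q : List ℕ → ℝ) :
    ℕ → List ℕ → ℝ
  | 0, v => 1 / ρ v
  | n + 1, v => ∑ i : Fin (b v), ∑ j : Fin (b v), wt b Q v i * (wt b Q v j *
      (if i = j then En b z ρ Q n (v ++ [i.1]) else 1 / ‖z (v ++ [i.1]) - z (v ++ [j.1])‖))

lemma En_le {b : List ℕ → ℕ} {z : List ℕ → ℂ} {ρ Q : List ℕ → ℝ} {N : ℕ} (hN : 1 ≤ N)
    (hbN : ∀ v, b v ≤ N)
    (hρ : ∀ v, 0 < ρ v) (hQ0 : ∀ v, 0 ≤ Q v) (hQρ : ∀ v, Q v ≤ 2 * ρ v)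
    (hd : ∀ v, ∀ i < b v, ∀ j < b v, i ≠ j → 0 < ‖z (v ++ [i]) - z (v ++ [j])‖)
    (hQS : ∀ v, Q v ≤ ∑ u : Fin (b v), Q (v ++ [u.1]))
    (hpair : ∀ v, ∀ i j : Fin (b v), i ≠ j →
      Q v + Q (v ++ [i.1]) * Q (v ++ [j.1]) / (2 * π * ‖z (v ++ [i.1]) - z (v ++ [j.1])‖) ≤
        ∑ u : Fin (b v), Q (v ++ [u.1])) (n : ℕ) (v : List ℕ) (hv : 0 < Q v) :
    En b z ρ Q n v ≤ 2 * π * N ^ 2 / Q v := by
  induction n generalizing v with
  | zero =>
    rw [En, div_le_div_iff₀ (hρ v) hv]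
    have h1 := hQρ v
    have h2 : (1 : ℝ) ≤ N := by exact_mod_cast hN
    have h3 := Real.pi_gt_three
    have h4 := hρ v
    have h5 : (1 : ℝ) ≤ (N : ℝ) ^ 2 := by nlinarith
    have h6 : 6 ≤ 2 * π * (N : ℝ) ^ 2 := by nlinarith
    nlinarith
  | succ n ih =>
    rw [En]
    exact flow_step (hbN v) (fun u : Fin (b v) => Q (v ++ [u.1]))
      (fun u => En b z ρ Q n (v ++ [u.1]))
      (fun i j => ‖z (v ++ [i.1]) - z (v ++ [j.1])‖) (fun u => hQ0 _) hv
      (fun i j hij => hd v i i.2 j j.2 (fun h => hij (Fin.ext h))) (hQS v) (hpair v)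
      (fun u hu => ih _ hu)

end Pool.Agent.H52F
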