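import Pool.Agent.H52F.Prod
import Pool.Agent.H52F.Flow

set_option autoImplicit false
set_option linter.unusedSectionVars false

open MeasureTheory Set Filter Topology
open scoped ENNReal Real

namespace Pool.Agent.H52F

/-- put `u` in front of a sequence -/
def cns (u : ℕ) (σ : ℕ → ℕ) : ℕ → ℕ
  | 0 => u
  | n + 1 => σ n

@[simp] lemma cns_zero (u : ℕ) (σ : ℕ → ℕ) : cns u σ 0 = u := rfl
@[simp] lemma cns_succ (u : ℕ) (σ : ℕ → ℕ) (n : ℕ) : cns u σ (n + 1) = σ n := rfl

/-- the tail of a sequence -/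
def tl (σ : ℕ → ℕ) : ℕ → ℕ := fun n => σ (n + 1)

@[simp] lemma tl_cns (u : ℕ) (σ : ℕ → ℕ) : tl (cns u σ) = σ := rfl

lemma cns_tl (σ : ℕ → ℕ) : cns (σ 0) (tl σ) = σ := by
  funext n; cases n <;> rfl

lemma measurable_cns (u : ℕ) : Measurable (cns u) := by
  rw [measurable_pi_iff]
  intro n
  cases n with
  | zero => exact measurable_const
  | succ n => exact measurable_pi_apply n

/-- the path starting at `v` which follows the choices `e` -/
def pth (e : List ℕ → ℕ) : ℕ → List ℕ → ℕ
  | 0, v => e v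
  | n + 1, v => pth e n (v ++ [e v])

lemma pth_eq_cns (e : List ℕ → ℕ) (v : List ℕ) :
    (fun n => pth e n v) = cns (e v) (fun n => pth e n (v ++ [e v])) := by
  funext n; cases n <;> rfl

lemma measurable_pth_coord (n : ℕ) (v : List ℕ) :
    Measurable (fun e : List ℕ → ℕ => pth e n v) := by
  induction n generalizing v with
  | zero => exact measurable_pi_apply v
  | succ n ih =>
    have h1 : Measurable (fun p : ℕ × (List ℕ → ℕ) => pth p.2 n (v ++ [p.1])) :=
      measurable_from_prod_countable_right fun u => ih (v ++ [u])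
    have h2 : Measurable (fun e : List ℕ → ℕ => (e v, e)) := by fun_prop
    exact h1.comp h2

lemma measurable_pth (v : List ℕ) :
    Measurable (fun (e : List ℕ → ℕ) (n : ℕ) => pth e n v) :=
  measurable_pi_iff.2 fun n => measurable_pth_coord n v

lemma pth_congr (e e' : List ℕ → ℕ) (n : ℕ) (v : List ℕ)
    (h : ∀ w, e (v ++ w) = e' (v ++ w)) : pth e n v = pth e' n v := by
  induction n generalizing v with
  | zero => simpa [pth] using h []
  | succ n ih =>
    rw [pth, pth]
    have h0 : e v = e' v := by simpa using h []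
    rw [h0]
    apply ih
    intro w
    have := h ([e' v] ++ w)
    simpa [List.append_assoc] using this

variable (κ : List ℕ → Measure ℕ) [∀ v, IsProbabilityMeasure (κ v)]

/-- the law of the path starting at `v` -/
noncomputable def mu (v : List ℕ) : Measure (ℕ → ℕ) :=
  (Measure.infinitePi κ).map (fun (e : List ℕ → ℕ) (n : ℕ) => pth e n v)

instance (v : List ℕ) : IsProbabilityMeasure (mu κ v) := by
  unfold mu
  exact Measure.isProbabilityMeasure_map (measurable_pth v).aemeasurable

/-- the Markov property -/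
lemma lintegral_mu (v : List ℕ) {F : (ℕ → ℕ) → ℝ≥0∞} (hF : Measurable F) :
    ∫⁻ σ, F σ ∂(mu κ v) =
      ∫⁻ u, ∫⁻ σ, F (cns u σ) ∂(mu κ (v ++ [u])) ∂(κ v) := by
  have h1 : ∀ e : List ℕ → ℕ, F (fun n => pth e n v) =
      F (cns (e v) (fun n => pth e n (v ++ [e v]))) := by
    intro e; rw [pth_eq_cns]
  have hm : Measurable (fun p : ℕ × (List ℕ → ℕ) =>
      F (cns p.1 (fun n => pth p.2 n (v ++ [p.1])))) :=
    measurable_from_prod_countable_right fun u =>
      hF.comp ((measurable_cns u).comp (measurable_pth (v ++ [u])))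
  rw [mu, lintegral_map hF (measurable_pth v)]
  simp only [h1]
  rw [lintegral_coord κ v (F := fun u e => F (cns u (fun n => pth e n (v ++ [u])))) hm]
  · rw [lintegral_lintegral_swap]
    · apply lintegral_congr
      intro u
      exact (lintegral_map (f := fun σ => F (cns u σ)) (hF.comp (measurable_cns u))
        (measurable_pth _)).symm
    · exact (hm.comp measurable_swap).aemeasurable
  · intro x w w' hww
    have : (fun n => pth w n (v ++ [x])) = fun n => pth w' n (v ++ [x]) := by
      funext n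
      apply pth_congr
      intro t
      apply hww
      intro h
      have := congrArg List.length h
      simp at this
    rw [this]

/-- one step of the flow -/
noncomputable def kap (b : List ℕ → ℕ) (Q : List ℕ → ℝ) (v : List ℕ) : Measure ℕ :=
  open Classical in
  if 0 < ∑ w : Fin (b v), Q (v ++ [w.1]) then
    ∑ u : Fin (b v), ENNReal.ofReal (wt b Q v u) • Measure.dirac (u : ℕ)
  else Measure.dirac 0

lemma wt_nonneg {b : List ℕ → ℕ} {Q : List ℕ → ℝ} (hQ : ∀ v, 0 ≤ Q v) (v : List ℕ) (u : ℕ) :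
    0 ≤ wt b Q v u := div_nonneg (hQ _) (Finset.sum_nonneg fun _ _ => hQ _)

lemma sum_wt {b : List ℕ → ℕ} {Q : List ℕ → ℝ} (v : List ℕ)
    (h : 0 < ∑ w : Fin (b v), Q (v ++ [w.1])) : ∑ u : Fin (b v), wt b Q v u = 1 := by
  unfold wt
  rw [← Finset.sum_div, div_self h.ne']

lemma kap_prob {b : List ℕ → ℕ} {Q : List ℕ → ℝ} (hQ : ∀ v, 0 ≤ Q v) (v : List ℕ) :
    IsProbabilityMeasure (kap b Q v) := by
  unfold kap
  split_ifs with h
  · constructor
    rw [Measure.coe_finsetSum, Finset.sum_apply]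
    simp only [Measure.smul_apply, Measure.dirac_apply_of_mem (mem_univ _), smul_eq_mul, mul_one]
    rw [← ENNReal.ofReal_sum_of_nonneg (f := fun u : Fin (b v) => wt b Q v u)
      (fun u _ => wt_nonneg hQ v u), sum_wt v h, ENNReal.ofReal_one]
  · infer_instance

lemma lintegral_kap {b : List ℕ → ℕ} {Q : List ℕ → ℝ} (v : List ℕ)
    (h : 0 < ∑ w : Fin (b v), Q (v ++ [w.1])) (f : ℕ → ℝ≥0∞) :
    ∫⁻ u, f u ∂(kap b Q v) = ∑ u : Fin (b v), ENNReal.ofReal (wt b Q v u) * f u := by
  rw [kap, if_pos h, lintegral_finsetSum_measure]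
  apply Finset.sum_congr rfl
  intro u _
  rw [lintegral_smul_measure, lintegral_dirac, smul_eq_mul]

/-- the kernel of the vertex where the two paths separate, truncated at `n` -/
noncomputable def Kn (z : List ℕ → ℂ) (ρ : List ℕ → ℝ) :
    ℕ → List ℕ → (ℕ → ℕ) → (ℕ → ℕ) → ℝ≥0∞
  | 0, v, _, _ => ENNReal.ofReal (1 / ρ v)
  | n + 1, v, σ, τ => if σ 0 = τ 0 then Kn z ρ n (v ++ [σ 0]) (tl σ) (tl τ)
      else ENNReal.ofReal (1 / ‖z (v ++ [σ 0]) - z (v ++ [τ 0])‖)

lemma measurable_tl : Measurable tl := by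
  rw [measurable_pi_iff]
  intro n
  exact measurable_pi_apply (n + 1)

lemma measurable_Kn (z : List ℕ → ℂ) (ρ : List ℕ → ℝ) (n : ℕ) (v : List ℕ) :
    Measurable (fun p : (ℕ → ℕ) × (ℕ → ℕ) => Kn z ρ n v p.1 p.2) := by
  induction n generalizing v with
  | zero => exact measurable_const
  | succ n ih =>
    simp only [Kn]
    apply Measurable.ite
    · apply measurableSet_eq_fun <;> fun_prop
    · have h1 : Measurable (fun p : ℕ × ((ℕ → ℕ) × (ℕ → ℕ)) =>
          Kn z ρ n (v ++ [p.1]) (tl p.2.1) (tl p.2.2)) :=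
        measurable_from_prod_countable_right fun u =>
          (ih (v ++ [u])).comp ((measurable_tl.comp measurable_fst).prodMk
            (measurable_tl.comp measurable_snd))
      have h2 : Measurable (fun p : (ℕ → ℕ) × (ℕ → ℕ) => (p.1 0, p)) := by fun_prop
      exact h1.comp h2
    · have h1 : Measurable (fun p : ℕ × ℕ =>
          ENNReal.ofReal (1 / ‖z (v ++ [p.1]) - z (v ++ [p.2])‖)) :=
        measurable_of_countable _
      have h2 : Measurable (fun p : (ℕ → ℕ) × (ℕ → ℕ) => (p.1 0, p.2 0)) := by fun_prop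
      exact h1.comp h2

lemma En_nonneg {b : List ℕ → ℕ} {z : List ℕ → ℂ} {ρ Q : List ℕ → ℝ} (hρ : ∀ v, 0 < ρ v)
    (hQ : ∀ v, 0 ≤ Q v) (n : ℕ) (v : List ℕ) : 0 ≤ En b z ρ Q n v := by
  induction n generalizing v with
  | zero => rw [En]; exact (one_div_pos.2 (hρ v)).le
  | succ n ih =>
    rw [En]
    apply Finset.sum_nonneg
    intro i _
    apply Finset.sum_nonneg
    intro j _
    apply mul_nonneg (wt_nonneg hQ v i) (mul_nonneg (wt_nonneg hQ v j) _)
    split_ifs
    · exact ih _
    · positivity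

/-- the energy of the path measure -/
lemma energy_le {b : List ℕ → ℕ} {z : List ℕ → ℂ} {ρ Q : List ℕ → ℝ} (hρ : ∀ v, 0 < ρ v)
    (hQ : ∀ v, 0 ≤ Q v)
    (hQS : ∀ v, Q v ≤ ∑ u : Fin (b v), Q (v ++ [u.1]))
    [∀ v, IsProbabilityMeasure (kap b Q v)] (n : ℕ) (v : List ℕ) (hv : 0 < Q v) :
    ∫⁻ σ, ∫⁻ τ, Kn z ρ n v σ τ ∂(mu (kap b Q) v) ∂(mu (kap b Q) v) ≤
      ENNReal.ofReal (En b z ρ Q n v) := by
  induction n generalizing v with
  | zero => simp [Kn, En]
  | succ n ih =>
    have hS : 0 < ∑ w : Fin (b v), Q (v ++ [w.1]) := lt_of_lt_of_le hv (hQS v)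
    have hin : ∀ σ : ℕ → ℕ, ∀ u : ℕ,
        ∫⁻ τ, Kn z ρ (n + 1) v (cns u σ) τ ∂(mu (kap b Q) v) =
        ∑ u' : Fin (b v), ENNReal.ofReal (wt b Q v u') *
          ∫⁻ τ, (if u = u' then Kn z ρ n (v ++ [u]) σ τ
            else ENNReal.ofReal (1 / ‖z (v ++ [u]) - z (v ++ [u'.1])‖))
            ∂(mu (kap b Q) (v ++ [u'.1])) := by
      intro σ u
      have hm0 : Measurable (fun τ : ℕ → ℕ => (cns u σ, τ)) :=
        measurable_const.prodMk measurable_id
      rw [lintegral_mu (kap b Q) v
        (F := fun τ => Kn z ρ (n + 1) v (cns u σ) τ)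
        ((measurable_Kn z ρ (n + 1) v).comp hm0),
        lintegral_kap v hS]
      rfl
    have hout : ∫⁻ σ, ∫⁻ τ, Kn z ρ (n + 1) v σ τ ∂(mu (kap b Q) v) ∂(mu (kap b Q) v) =
        ∑ u : Fin (b v), ENNReal.ofReal (wt b Q v u) *
          ∑ u' : Fin (b v), ENNReal.ofReal (wt b Q v u') *
          ∫⁻ σ, ∫⁻ τ, (if u.1 = u'.1 then Kn z ρ n (v ++ [u.1]) σ τ
            else ENNReal.ofReal (1 / ‖z (v ++ [u.1]) - z (v ++ [u'.1])‖))
            ∂(mu (kap b Q) (v ++ [u'.1])) ∂(mu (kap b Q) (v ++ [u.1])) := by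
      rw [lintegral_mu (kap b Q) v
        (F := fun σ => ∫⁻ τ, Kn z ρ (n + 1) v σ τ ∂(mu (kap b Q) v))
        ((measurable_Kn z ρ (n + 1) v).lintegral_prod_right'), lintegral_kap v hS]
      apply Finset.sum_congr rfl
      intro u _
      congr 1
      simp only [hin]
      have hm : ∀ u' : Fin (b v), Measurable (fun σ : ℕ → ℕ =>
          ∫⁻ τ, (if u.1 = u'.1 then Kn z ρ n (v ++ [u.1]) σ τ
            else ENNReal.ofReal (1 / ‖z (v ++ [u.1]) - z (v ++ [u'.1])‖))
            ∂(mu (kap b Q) (v ++ [u'.1]))) := by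
        intro u'
        by_cases h : u.1 = u'.1
        · simp only [h, if_true]
          exact (measurable_Kn z ρ n _).lintegral_prod_right'
        · simp only [h, if_false]
          exact measurable_const
      rw [lintegral_finsetSum _ (fun u' _ => (hm u').const_mul _)]
      apply Finset.sum_congr rfl
      intro u' _
      rw [lintegral_const_mul _ (hm u')]
    rw [hout]
    have hterm : ∀ u u' : Fin (b v), ENNReal.ofReal (wt b Q v u) *
        (ENNReal.ofReal (wt b Q v u') *
          ∫⁻ σ, ∫⁻ τ, (if u.1 = u'.1 then Kn z ρ n (v ++ [u.1]) σ τ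
            else ENNReal.ofReal (1 / ‖z (v ++ [u.1]) - z (v ++ [u'.1])‖))
            ∂(mu (kap b Q) (v ++ [u'.1])) ∂(mu (kap b Q) (v ++ [u.1]))) ≤
        ENNReal.ofReal (wt b Q v u * (wt b Q v u' *
          (if u = u' then En b z ρ Q n (v ++ [u.1])
            else 1 / ‖z (v ++ [u.1]) - z (v ++ [u'.1])‖))) := by
      intro u u'
      rw [ENNReal.ofReal_mul (wt_nonneg hQ v u), ENNReal.ofReal_mul (wt_nonneg hQ v u')]
      by_cases h : u = u'
      · subst h
        simp only [if_true]
        rcases (hQ (v ++ [u.1])).eq_or_lt with h0 | h0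
        · have : wt b Q v u = 0 := by unfold wt; rw [← h0]; simp
          rw [this]; simp
        · gcongr
          exact ih _ h0
      · have h' : u.1 ≠ u'.1 := fun hh => h (Fin.ext hh)
        simp only [h, h', if_false]
        gcongr
        simp
    calc ∑ u : Fin (b v), ENNReal.ofReal (wt b Q v u) *
          ∑ u' : Fin (b v), ENNReal.ofReal (wt b Q v u') *
          ∫⁻ σ, ∫⁻ τ, (if u.1 = u'.1 then Kn z ρ n (v ++ [u.1]) σ τ
            else ENNReal.ofReal (1 / ‖z (v ++ [u.1]) - z (v ++ [u'.1])‖))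
            ∂(mu (kap b Q) (v ++ [u'.1])) ∂(mu (kap b Q) (v ++ [u.1]))
        ≤ ∑ u : Fin (b v), ∑ u' : Fin (b v), ENNReal.ofReal (wt b Q v u * (wt b Q v u' *
          (if u = u' then En b z ρ Q n (v ++ [u.1])
            else 1 / ‖z (v ++ [u.1]) - z (v ++ [u'.1])‖))) := by
          apply Finset.sum_le_sum
          intro u _
          rw [Finset.mul_sum]
          apply Finset.sum_le_sum
          intro u' _
          exact hterm u u'
      _ = ENNReal.ofReal (En b z ρ Q (n + 1) v) := by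
          have hnn : ∀ u u' : Fin (b v), 0 ≤ wt b Q v u * (wt b Q v u' *
              (if u = u' then En b z ρ Q n (v ++ [u.1])
                else 1 / ‖z (v ++ [u.1]) - z (v ++ [u'.1])‖)) := by
            intro u u'
            apply mul_nonneg (wt_nonneg hQ v u) (mul_nonneg (wt_nonneg hQ v u') _)
            split_ifs
            · exact En_nonneg hρ hQ n _
            · positivity
          rw [En, ENNReal.ofReal_sum_of_nonneg
            (fun u _ => Finset.sum_nonneg fun u' _ => hnn u u')]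
          apply Finset.sum_congr rfl
          intro u _
          rw [ENNReal.ofReal_sum_of_nonneg (fun u' _ => hnn u u')]

end Pool.Agent.H52F
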