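import Pool.Agent.H52F.Cov
import Pool.Agent.H52F.Path

set_option autoImplicit false
set_option linter.unusedSectionVars false

open MeasureTheory Set Filter Topology
open scoped ENNReal Real

namespace Pool.Agent.H52F

variable {ι : Type*}

/-- the first `n` terms of a sequence -/
def cut (σ : ℕ → ℕ) : ℕ → List ℕ
  | 0 => []
  | n + 1 => cut σ n ++ [σ n]

/-- infinite branches of the tree above `v` -/
def Br (b : List ℕ → ℕ) (v : List ℕ) : Set (ℕ → ℕ) := {σ | ∀ n, σ n < b (v ++ cut σ n)}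

/-- the point of the Cantor set with address `σ` -/
noncomputable def pt (c : List ℕ → ι) (z : List ℕ → ℂ) (φ : ι → ℝ) (v : List ℕ) (σ : ℕ → ℕ) :
    ℂ := ∑' n, Complex.exp (Complex.I * φ (c (v ++ cut σ n))) * z (v ++ cut σ (n + 1))

lemma cut_succ' (σ : ℕ → ℕ) (n : ℕ) : cut σ (n + 1) = [σ 0] ++ cut (tl σ) n := by
  induction n with
  | zero => simp [cut]
  | succ n ih =>
    rw [cut, ih, cut, List.append_assoc]
    rfl

lemma mem_Br_iff (b : List ℕ → ℕ) (v : List ℕ) (σ : ℕ → ℕ) :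
    σ ∈ Br b v ↔ σ 0 < b v ∧ tl σ ∈ Br b (v ++ [σ 0]) := by
  constructor
  · intro h
    refine ⟨by simpa [cut] using h 0, fun n => ?_⟩
    have := h (n + 1)
    rw [cut_succ', ← List.append_assoc] at this
    exact this
  · rintro ⟨h0, h1⟩ n
    cases n with
    | zero => simpa [cut] using h0
    | succ n =>
      have := h1 n
      rw [cut_succ', ← List.append_assoc]
      exact this

variable {c : List ℕ → ι} {b : List ℕ → ℕ} {z : List ℕ → ℂ} {ρ : List ℕ → ℝ} {δ κ : ℝ}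

lemma radius_le (hκ0 : 0 ≤ κ)
    (hsh : ∀ v, ∀ u < b v, ρ (v ++ [u]) ≤ κ * ρ v) (v : List ℕ) (σ : ℕ → ℕ)
    (hσ : σ ∈ Br b v) (n : ℕ) : ρ (v ++ cut σ n) ≤ κ ^ n * ρ v := by
  induction n with
  | zero => simp [cut]
  | succ n ih =>
    rw [cut, ← List.append_assoc]
    refine (hsh _ _ (hσ n)).trans ?_
    rw [pow_succ, mul_assoc, mul_comm _ (ρ v), ← mul_assoc, mul_comm _ κ]
    exact mul_le_mul_of_nonneg_left ih hκ0

lemma term_le (hρ : ∀ v, 0 < ρ v)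
    (hin : ∀ v, ∀ u < b v, ‖z (v ++ [u])‖ + ρ (v ++ [u]) ≤ ρ v) (v : List ℕ) (σ : ℕ → ℕ)
    (hσ : σ ∈ Br b v) (n : ℕ) :
    ‖z (v ++ cut σ (n + 1))‖ ≤ ρ (v ++ cut σ n) - ρ (v ++ cut σ (n + 1)) := by
  have h := hin (v ++ cut σ n) (σ n) (hσ n)
  rw [List.append_assoc] at h
  change ‖z (v ++ (cut σ n ++ [σ n]))‖ ≤ ρ (v ++ cut σ n) - ρ (v ++ (cut σ n ++ [σ n]))
  linarith

lemma norm_term (φ : ι → ℝ) (v : List ℕ) (σ : ℕ → ℕ) (n : ℕ) :
    ‖Complex.exp (Complex.I * φ (c (v ++ cut σ n))) * z (v ++ cut σ (n + 1))‖ =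
      ‖z (v ++ cut σ (n + 1))‖ := by
  rw [norm_mul, mul_comm Complex.I, Complex.norm_exp_ofReal_mul_I, one_mul]

lemma sum_terms_le (hρ : ∀ v, 0 < ρ v)
    (hin : ∀ v, ∀ u < b v, ‖z (v ++ [u])‖ + ρ (v ++ [u]) ≤ ρ v) (v : List ℕ) (σ : ℕ → ℕ)
    (hσ : σ ∈ Br b v) (n : ℕ) :
    ∑ k ∈ Finset.range n, ‖z (v ++ cut σ (k + 1))‖ ≤ ρ v := by
  have h : ∑ k ∈ Finset.range n, ‖z (v ++ cut σ (k + 1))‖ ≤ ρ v - ρ (v ++ cut σ n) := by
    induction n with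
    | zero => simp [cut]
    | succ n ih =>
      rw [Finset.sum_range_succ]
      have := term_le hρ hin v σ hσ n
      linarith
  linarith [hρ (v ++ cut σ n)]

lemma summable_norm (hρ : ∀ v, 0 < ρ v)
    (hin : ∀ v, ∀ u < b v, ‖z (v ++ [u])‖ + ρ (v ++ [u]) ≤ ρ v) (φ : ι → ℝ)
    (v : List ℕ) (σ : ℕ → ℕ) (hσ : σ ∈ Br b v) :
    Summable (fun n => ‖Complex.exp (Complex.I * φ (c (v ++ cut σ n))) *
      z (v ++ cut σ (n + 1))‖) := by
  simp only [norm_term]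
  exact summable_of_sum_range_le (fun n => norm_nonneg _)
    (fun n => sum_terms_le hρ hin v σ hσ n)

lemma summable_pt (hρ : ∀ v, 0 < ρ v)
    (hin : ∀ v, ∀ u < b v, ‖z (v ++ [u])‖ + ρ (v ++ [u]) ≤ ρ v) (φ : ι → ℝ)
    (v : List ℕ) (σ : ℕ → ℕ) (hσ : σ ∈ Br b v) :
    Summable (fun n => Complex.exp (Complex.I * φ (c (v ++ cut σ n))) *
      z (v ++ cut σ (n + 1))) :=
  (summable_norm hρ hin φ v σ hσ).of_norm

lemma norm_pt_le (hρ : ∀ v, 0 < ρ v)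
    (hin : ∀ v, ∀ u < b v, ‖z (v ++ [u])‖ + ρ (v ++ [u]) ≤ ρ v) (φ : ι → ℝ)
    (v : List ℕ) (σ : ℕ → ℕ) (hσ : σ ∈ Br b v) : ‖pt c z φ v σ‖ ≤ ρ v := by
  refine (norm_tsum_le_tsum_norm (summable_norm hρ hin φ v σ hσ)).trans ?_
  simp only [norm_term]
  exact Real.tsum_le_of_sum_range_le (fun n => norm_nonneg _)
    (fun n => sum_terms_le hρ hin v σ hσ n)

lemma pt_succ (hρ : ∀ v, 0 < ρ v)
    (hin : ∀ v, ∀ u < b v, ‖z (v ++ [u])‖ + ρ (v ++ [u]) ≤ ρ v) (φ : ι → ℝ)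
    (v : List ℕ) (σ : ℕ → ℕ) (hσ : σ ∈ Br b v) :
    pt c z φ v σ = Complex.exp (Complex.I * φ (c v)) * z (v ++ [σ 0]) +
      pt c z φ (v ++ [σ 0]) (tl σ) := by
  rw [pt, (summable_pt hρ hin φ v σ hσ).tsum_eq_zero_add]
  congr 1
  · simp [cut]
  · rw [pt]
    apply tsum_congr
    intro n
    rw [cut_succ' σ n, cut_succ' σ (n + 1), ← List.append_assoc, ← List.append_assoc]

/-- separation of two branches -/
lemma sep (hρ : ∀ v, 0 < ρ v) (hδ : 0 < δ)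
    (hin : ∀ v, ∀ u < b v, ‖z (v ++ [u])‖ + ρ (v ++ [u]) ≤ ρ v)
    (hsep : ∀ v, ∀ i < b v, ∀ j < b v, i ≠ j →
      (1 + δ) * (ρ (v ++ [i]) + ρ (v ++ [j])) ≤ ‖z (v ++ [i]) - z (v ++ [j])‖)
    (φ : ι → ℝ) (n : ℕ) (v : List ℕ) (σ τ : ℕ → ℕ) (hσ : σ ∈ Br b v) (hτ : τ ∈ Br b v)
    (hne : ∃ m < n, σ m ≠ τ m) :
    ‖pt c z φ v σ - pt c z φ v τ‖ₑ⁻¹ ≤ ENNReal.ofReal ((1 + δ) / δ) * Kn z ρ n v σ τ := by
  induction n generalizing v σ τ with
  | zero => obtain ⟨m, hm, -⟩ := hne; omega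
  | succ n ih =>
    obtain ⟨hσ0, hσ1⟩ := (mem_Br_iff b v σ).1 hσ
    obtain ⟨hτ0, hτ1⟩ := (mem_Br_iff b v τ).1 hτ
    rw [Kn, pt_succ hρ hin φ v σ hσ, pt_succ hρ hin φ v τ hτ]
    by_cases h0 : σ 0 = τ 0
    · rw [if_pos h0]
      rw [← h0] at hτ1 ⊢
      rw [add_sub_add_left_eq_sub]
      apply ih _ _ _ hσ1 hτ1
      obtain ⟨m, hm, hmne⟩ := hne
      cases m with
      | zero => exact absurd h0 hmne
      | succ m => exact ⟨m, by omega, hmne⟩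
    · rw [if_neg h0]
      have h1 := hsep v _ hσ0 _ hτ0 h0
      have h2 := norm_pt_le (c := c) hρ hin φ _ _ hσ1
      have h3 := norm_pt_le (c := c) hρ hin φ _ _ hτ1
      have h9 : 0 < ‖z (v ++ [σ 0]) - z (v ++ [τ 0])‖ := by
        have e1 := hρ (v ++ [σ 0])
        have e2 := hρ (v ++ [τ 0])
        have e3 : 0 < (1 + δ) * (ρ (v ++ [σ 0]) + ρ (v ++ [τ 0])) := by positivity
        linarith
      have h10 : ρ (v ++ [σ 0]) + ρ (v ++ [τ 0]) ≤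
          ‖z (v ++ [σ 0]) - z (v ++ [τ 0])‖ / (1 + δ) := by
        rw [le_div_iff₀ (by positivity)]; linarith
      have h4 : δ / (1 + δ) * ‖z (v ++ [σ 0]) - z (v ++ [τ 0])‖ ≤
          ‖Complex.exp (Complex.I * φ (c v)) * z (v ++ [σ 0]) +
          pt c z φ (v ++ [σ 0]) (tl σ) - (Complex.exp (Complex.I * φ (c v)) * z (v ++ [τ 0]) +
          pt c z φ (v ++ [τ 0]) (tl τ))‖ := by
        have h5 : Complex.exp (Complex.I * φ (c v)) * z (v ++ [σ 0]) +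
          pt c z φ (v ++ [σ 0]) (tl σ) - (Complex.exp (Complex.I * φ (c v)) * z (v ++ [τ 0]) +
          pt c z φ (v ++ [τ 0]) (tl τ)) =
          Complex.exp (Complex.I * φ (c v)) * (z (v ++ [σ 0]) - z (v ++ [τ 0])) -
          (pt c z φ (v ++ [τ 0]) (tl τ) - pt c z φ (v ++ [σ 0]) (tl σ)) := by ring
        rw [h5]
        have h6 := norm_sub_norm_le
          (Complex.exp (Complex.I * φ (c v)) * (z (v ++ [σ 0]) - z (v ++ [τ 0])))
          (pt c z φ (v ++ [τ 0]) (tl τ) - pt c z φ (v ++ [σ 0]) (tl σ))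
        have h7 : ‖Complex.exp (Complex.I * φ (c v)) * (z (v ++ [σ 0]) - z (v ++ [τ 0]))‖ =
            ‖z (v ++ [σ 0]) - z (v ++ [τ 0])‖ := by
          rw [norm_mul, mul_comm Complex.I, Complex.norm_exp_ofReal_mul_I, one_mul]
        have h8 := norm_sub_le (pt c z φ (v ++ [τ 0]) (tl τ)) (pt c z φ (v ++ [σ 0]) (tl σ))
        rw [h7] at h6
        have h11 : δ / (1 + δ) * ‖z (v ++ [σ 0]) - z (v ++ [τ 0])‖ =
            ‖z (v ++ [σ 0]) - z (v ++ [τ 0])‖ -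
              ‖z (v ++ [σ 0]) - z (v ++ [τ 0])‖ / (1 + δ) := by
          field_simp
          ring
        rw [h11]
        linarith
      have hpos : 0 < δ / (1 + δ) * ‖z (v ++ [σ 0]) - z (v ++ [τ 0])‖ := by positivity
      have h12 : (1 + δ) / δ * (1 / ‖z (v ++ [σ 0]) - z (v ++ [τ 0])‖) =
          (δ / (1 + δ) * ‖z (v ++ [σ 0]) - z (v ++ [τ 0])‖)⁻¹ := by
        field_simp
      rw [← ENNReal.ofReal_mul (by positivity), h12, ENNReal.ofReal_inv_of_pos hpos,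
        ← ofReal_norm]
      exact ENNReal.inv_le_inv.2 (ENNReal.ofReal_le_ofReal h4)

/-- the covers really cover -/
lemma proj_mem_cov (hρ : ∀ v, 0 < ρ v)
    (hin : ∀ v, ∀ u < b v, ‖z (v ++ [u])‖ + ρ (v ++ [u]) ≤ ρ v) (θ : ℝ) (φ : ι → ℝ)
    (n : ℕ) (v : List ℕ) (σ : ℕ → ℕ) (hσ : σ ∈ Br b v) :
    proj θ (pt c z φ v σ) ∈ cov c b z ρ θ φ n v := by
  induction n generalizing v σ with
  | zero =>
    have h1 := abs_proj_le θ (pt c z φ v σ)
    have h2 := norm_pt_le (c := c) hρ hin φ v σ hσ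
    exact abs_le.1 (h1.trans h2)
  | succ n ih =>
    obtain ⟨hσ0, hσ1⟩ := (mem_Br_iff b v σ).1 hσ
    rw [cov, mem_iUnion]
    refine ⟨⟨σ 0, hσ0⟩, ?_⟩
    have h1 : proj θ (pt c z φ v σ) - sh c z θ φ v (σ 0) =
        proj θ (pt c z φ (v ++ [σ 0]) (tl σ)) := by
      rw [pt_succ hρ hin φ v σ hσ, proj_add, sh]; ring
    show proj θ (pt c z φ v σ) - sh c z θ φ v (σ 0) ∈ cov c b z ρ θ φ n (v ++ [σ 0])
    rw [h1]
    exact ih _ _ hσ1

/-- functions of finitely many coordinates are continuous -/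
lemma continuous_cut {α : Type*} [TopologicalSpace α] (g : List ℕ → α) (n : ℕ) :
    Continuous (fun σ : ℕ → ℕ => g (cut σ n)) := by
  induction n generalizing g with
  | zero =>
    simp only [cut]
    fun_prop
  | succ n ih =>
    have h1 : Continuous (fun p : ℕ × (ℕ → ℕ) => g (cut p.2 n ++ [p.1])) := by
      rw [continuous_prod_of_discrete_left]
      intro u
      exact ih (fun l => g (l ++ [u]))
    have h2 : Continuous (fun σ : ℕ → ℕ => (σ n, σ)) := by fun_prop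
    exact h1.comp h2

lemma isCompact_Br {N : ℕ} (hbN : ∀ v, b v ≤ N) (v : List ℕ) : IsCompact (Br b v) := by
  have h1 : IsCompact {σ : ℕ → ℕ | ∀ n, σ n ∈ Iio N} :=
    isCompact_pi_infinite fun _ => (finite_Iio N).isCompact
  have h0 : Br b v ⊆ {σ : ℕ → ℕ | ∀ n, σ n ∈ Iio N} :=
    fun σ hσ n => lt_of_lt_of_le (hσ n) (hbN (v ++ cut σ n))
  refine h1.of_isClosed_subset ?_ h0
  have h2 : Br b v = ⋂ n, {σ | σ n < b (v ++ cut σ n)} := by
    ext σ; simp [Br]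
  rw [h2]
  apply isClosed_iInter
  intro n
  have h3 : Continuous (fun σ : ℕ → ℕ => (σ n, b (v ++ cut σ n))) :=
    (continuous_apply n).prodMk (continuous_cut (fun l => b (v ++ l)) n)
  have h4 : {σ : ℕ → ℕ | σ n < b (v ++ cut σ n)} =
      (fun σ : ℕ → ℕ => (σ n, b (v ++ cut σ n))) ⁻¹' {p | p.1 < p.2} := rfl
  rw [h4]
  exact (isClosed_discrete _).preimage h3

lemma continuousOn_pt (hρ : ∀ v, 0 < ρ v) (hκ0 : 0 ≤ κ) (hκ : κ < 1)
    (hin : ∀ v, ∀ u < b v, ‖z (v ++ [u])‖ + ρ (v ++ [u]) ≤ ρ v)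
    (hsh : ∀ v, ∀ u < b v, ρ (v ++ [u]) ≤ κ * ρ v)
    (φ : ι → ℝ) (v : List ℕ) : ContinuousOn (pt c z φ v) (Br b v) := by
  apply continuousOn_tsum (u := fun n => κ ^ n * ρ v)
  · intro n
    apply Continuous.continuousOn
    apply Continuous.mul
    · exact continuous_cut (fun l => Complex.exp (Complex.I * φ (c (v ++ l)))) n
    · exact continuous_cut (fun l => z (v ++ l)) (n + 1)
  · apply Summable.mul_right
    exact summable_geometric_of_lt_one hκ0 hκ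
  · intro n σ hσ
    rw [norm_term]
    have h1 := term_le hρ hin v σ hσ n
    have h2 := radius_le hκ0 hsh v σ hσ n
    linarith [hρ (v ++ cut σ (n + 1))]

lemma isCompact_image {N : ℕ} (hbN : ∀ v, b v ≤ N) (hρ : ∀ v, 0 < ρ v) (hκ0 : 0 ≤ κ)
    (hκ : κ < 1)
    (hin : ∀ v, ∀ u < b v, ‖z (v ++ [u])‖ + ρ (v ++ [u]) ≤ ρ v)
    (hsh : ∀ v, ∀ u < b v, ρ (v ++ [u]) ≤ κ * ρ v)
    (φ : ι → ℝ) (v : List ℕ) : IsCompact (pt c z φ v '' Br b v) :=
  (isCompact_Br hbN v).image_of_continuousOn (continuousOn_pt hρ hκ0 hκ hin hsh φ v)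

end Pool.Agent.H52F
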