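import Pool.Agent.H52F.Main

set_option autoImplicit false
set_option linter.unusedSectionVars false
set_option linter.unusedVariables false

open MeasureTheory Set Filter Topology
open scoped ENNReal Real

namespace Pool.Agent.H52F

/-- number of children, as a function of the vertex -/
def lb (b : ℕ → ℕ) (v : List ℕ) : ℕ := b v.length
/-- displacement, as a function of the vertex -/
def lz (z : ℕ → ℕ → ℂ) (v : List ℕ) : ℂ := z (v.length - 1) (v.getLastD 0)
/-- radius, as a function of the vertex -/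
def lr (ρ : ℕ → ℝ) (v : List ℕ) : ℝ := ρ v.length

lemma lz_append (z : ℕ → ℕ → ℂ) (v : List ℕ) (u : ℕ) : lz z (v ++ [u]) = z v.length u := by
  simp [lz]

lemma length_cut (σ : ℕ → ℕ) (n : ℕ) : (cut σ n).length = n := by
  induction n with
  | zero => rfl
  | succ n ih => simp [cut, ih]

/-- discrete energy of the digits of generation `n` -/
noncomputable def dE (b : ℕ → ℕ) (z : ℕ → ℕ → ℂ) (n : ℕ) : ℝ :=
  (∑ i : Fin (b n), ∑ j : Fin (b n), if i = j then 0 else 1 / ‖z n i - z n j‖) / (b n : ℝ) ^ 2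

noncomputable def LL (b : ℕ → ℕ) (z : ℕ → ℕ → ℂ) (ρ : ℕ → ℝ) : ℕ → ℕ → ℝ
  | 0, m => 1 / ρ m
  | n + 1, m => dE b z m + LL b z ρ n (m + 1) / b m

lemma LL_eq (b : ℕ → ℕ) (z : ℕ → ℕ → ℂ) (ρ : ℕ → ℝ) (n m : ℕ) :
    LL b z ρ n m = ∑ k ∈ Finset.range n, dE b z (m + k) / ∏ l ∈ Finset.range k, (b (m + l) : ℝ) +
      1 / ρ (m + n) / ∏ l ∈ Finset.range n, (b (m + l) : ℝ) := by
  induction n generalizing m with
  | zero => simp [LL]
  | succ n ih =>
    rw [LL, ih, Finset.sum_range_succ']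
    have h1 : ∀ k, ∏ l ∈ Finset.range (k + 1), (b (m + l) : ℝ) =
        (∏ l ∈ Finset.range k, (b (m + 1 + l) : ℝ)) * b m := by
      intro k
      rw [Finset.prod_range_succ']
      congr 1
      apply Finset.prod_congr rfl
      intro l _
      congr 2
      ring
    have h2 : ∀ k, m + (k + 1) = m + 1 + k := fun k => by ring
    have h3 : ∑ k ∈ Finset.range n, dE b z (m + (k + 1)) /
        ∏ l ∈ Finset.range (k + 1), (b (m + l) : ℝ) =
        (∑ k ∈ Finset.range n, dE b z (m + 1 + k) /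
          ∏ l ∈ Finset.range k, (b (m + 1 + l) : ℝ)) / b m := by
      rw [Finset.sum_div]
      apply Finset.sum_congr rfl
      intro k _
      rw [h1, h2 k, div_div]
    rw [h3, h1 n, h2 n, Finset.range_zero, Finset.prod_empty, add_zero, div_one, add_div,
      ← div_div]
    ring

lemma En_level {b : ℕ → ℕ} {z : ℕ → ℕ → ℂ} {ρ : ℕ → ℝ} {Q : List ℕ → ℝ}
    (hw : ∀ v, 0 < Q v → ∀ i < b v.length,
      wt (lb b) Q v i = 1 / b v.length ∧ 0 < Q (v ++ [i])) (n : ℕ) (v : List ℕ)
    (hv : 0 < Q v) (hb : ∀ n, b n ≠ 0) :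
    En (lb b) (lz z) (lr ρ) Q n v = LL b z ρ n v.length := by
  induction n generalizing v with
  | zero => rfl
  | succ n ih =>
    rw [En, LL]
    have hbv : (b v.length : ℝ) ≠ 0 := by exact_mod_cast hb v.length
    have h1 : ∀ i j : Fin (lb b v), wt (lb b) Q v i * (wt (lb b) Q v j *
        (if i = j then En (lb b) (lz z) (lr ρ) Q n (v ++ [i.1])
          else 1 / ‖lz z (v ++ [i.1]) - lz z (v ++ [j.1])‖)) =
        (if i = j then LL b z ρ n (v.length + 1) / (b v.length : ℝ) ^ 2 else 0) +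
        (if i = j then 0 else 1 / ‖z v.length i - z v.length j‖) / (b v.length : ℝ) ^ 2 := by
      intro i j
      rw [(hw v hv i i.2).1, (hw v hv j j.2).1, lz_append, lz_append]
      split_ifs with h
      · rw [ih _ (hw v hv i i.2).2]
        simp only [List.length_append, List.length_singleton]
        field_simp
        ring
      · field_simp
        ring
    simp only [h1, Finset.sum_add_distrib, Finset.sum_ite_eq, Finset.mem_univ, if_true,
      Finset.sum_const, Finset.card_univ, Fintype.card_fin, nsmul_eq_mul]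
    have h2 : dE b z v.length = ∑ i : Fin (lb b v), ∑ j : Fin (lb b v),
        (if i = j then 0 else 1 / ‖z v.length i - z v.length j‖) / (b v.length : ℝ) ^ 2 := by
      rw [dE, Finset.sum_div]
      apply Finset.sum_congr rfl
      intro i _
      rw [Finset.sum_div]
      rfl
    rw [← h2]
    have h3 : (lb b v : ℝ) = b v.length := rfl
    rw [h3]
    field_simp
    ring

/-- the sum which decides everything -/
noncomputable def TT (b : ℕ → ℕ) (z : ℕ → ℕ → ℂ) : ℝ≥0∞ :=
  ∑' n, ENNReal.ofReal (dE b z n / ∏ k ∈ Finset.range n, (b k : ℝ))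

lemma dE_nonneg (b : ℕ → ℕ) (z : ℕ → ℕ → ℂ) (n : ℕ) : 0 ≤ dE b z n := by
  unfold dE
  apply div_nonneg _ (by positivity)
  apply Finset.sum_nonneg
  intro i _
  apply Finset.sum_nonneg
  intro j _
  split_ifs
  · exact le_rfl
  · positivity

lemma term_nonneg (b : ℕ → ℕ) (z : ℕ → ℕ → ℂ) (n : ℕ) :
    0 ≤ dE b z n / ∏ k ∈ Finset.range n, (b k : ℝ) :=
  div_nonneg (dE_nonneg b z n) (Finset.prod_nonneg fun _ _ => by positivity)

lemma TT_le_of_forall {b : ℕ → ℕ} {z : ℕ → ℕ → ℂ} {M : ℝ}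
    (h : ∀ n, ∑ k ∈ Finset.range n, dE b z k / ∏ l ∈ Finset.range k, (b l : ℝ) ≤ M) :
    TT b z ≤ ENNReal.ofReal M := by
  unfold TT
  rw [ENNReal.tsum_eq_iSup_nat]
  apply iSup_le
  intro n
  rw [← ENNReal.ofReal_sum_of_nonneg (fun k _ => term_nonneg b z k)]
  exact ENNReal.ofReal_le_ofReal (h n)

lemma sum_le_TT {b : ℕ → ℕ} {z : ℕ → ℕ → ℂ} (hT : TT b z ≠ ∞) (n : ℕ) :
    ∑ k ∈ Finset.range n, dE b z k / ∏ l ∈ Finset.range k, (b l : ℝ) ≤ (TT b z).toReal := by
  rw [← ENNReal.ofReal_le_iff_le_toReal hT, ENNReal.ofReal_sum_of_nonneg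
    (fun k _ => term_nonneg b z k)]
  exact ENNReal.sum_le_tsum _

section

variable {N : ℕ} {b : ℕ → ℕ} {z : ℕ → ℕ → ℂ} {ρ : ℕ → ℝ} {δ : ℝ}

lemma hin_level (hin : ∀ n, ∀ u < b n, ‖z n u‖ + ρ (n + 1) ≤ ρ n) :
    ∀ v, ∀ u < lb b v, ‖lz z (v ++ [u])‖ + lr ρ (v ++ [u]) ≤ lr ρ v := by
  intro v u hu
  rw [lz_append]
  simp only [lr, List.length_append, List.length_singleton]
  exact hin v.length u hu

lemma hsep_level (hsep : ∀ n, ∀ i < b n, ∀ j < b n, i ≠ j →
      (1 + δ) * (2 * ρ (n + 1)) ≤ ‖z n i - z n j‖) :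
    ∀ v, ∀ i < lb b v, ∀ j < lb b v, i ≠ j →
      (1 + δ) * (lr ρ (v ++ [i]) + lr ρ (v ++ [j])) ≤ ‖lz z (v ++ [i]) - lz z (v ++ [j])‖ := by
  intro v i hi j hj hij
  rw [lz_append, lz_append]
  simp only [lr, List.length_append, List.length_singleton]
  have := hsep v.length i hi j hj hij
  linarith

lemma half_level (hb : ∀ n, 2 ≤ b n ∧ b n ≤ N) (hρ : ∀ n, 0 < ρ n) (hδ : 0 < δ)
    (hin : ∀ n, ∀ u < b n, ‖z n u‖ + ρ (n + 1) ≤ ρ n)
    (hsep : ∀ n, ∀ i < b n, ∀ j < b n, i ≠ j →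
      (1 + δ) * (2 * ρ (n + 1)) ≤ ‖z n i - z n j‖) (n : ℕ) : ρ (n + 1) ≤ 1 / 2 * ρ n := by
  have h0 : 0 < b n := by have := (hb n).1; omega
  have h1 : 1 < b n := by have := (hb n).1; omega
  have h2 := hsep n 0 h0 1 h1 (by norm_num)
  have h3 := norm_sub_le (z n 0) (z n 1)
  have h4 := hin n 0 h0
  have h5 := hin n 1 h1
  have h6 := hρ (n + 1)
  nlinarith

lemma hsh_level (h : ∀ n, ρ (n + 1) ≤ 1 / 2 * ρ n) :
    ∀ v, ∀ u < lb b v, lr ρ (v ++ [u]) ≤ 1 / 2 * lr ρ v := by
  intro v u _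
  simp only [lr, List.length_append, List.length_singleton]
  exact h v.length

lemma level_same (v v' : List ℕ) (h : v.length = v'.length) (w : List ℕ) :
    lb b (v ++ w) = lb b (v' ++ w) ∧ lr ρ (v ++ w) = lr ρ (v' ++ w) ∧
      (v ++ w).length = (v' ++ w).length ∧
      ∀ u, lz z (v ++ w ++ [u]) = lz z (v' ++ w ++ [u]) := by
  have hl : (v ++ w).length = (v' ++ w).length := by simp [h]
  refine ⟨by simp only [lb, hl], by simp only [lr, hl], hl, fun u => ?_⟩
  rw [lz_append, lz_append, hl]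

lemma Q_level (θ : ℝ) (v v' : List ℕ) (h : v.length = v'.length) :
    Q (fun v : List ℕ => v.length) (lb b) (lz z) (lr ρ) θ v =
      Q (fun v : List ℕ => v.length) (lb b) (lz z) (lr ρ) θ v' := by
  unfold Q qr qq
  have h1 : ∀ (φ : ℕ → ℝ) (n : ℕ), cov (fun v : List ℕ => v.length) (lb b) (lz z) (lr ρ) θ φ n v
      = cov (fun v : List ℕ => v.length) (lb b) (lz z) (lr ρ) θ φ n v' :=
    fun φ n => cov_same _ _ _ _ θ φ n v v' (level_same v v' h)
  simp only [h1]

lemma wt_level {Q : List ℕ → ℝ} (hQl : ∀ v v' : List ℕ, v.length = v'.length → Q v = Q v')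
    (hQ : ∀ v, 0 ≤ Q v)
    (hQS : ∀ v, Q v ≤ ∑ u : Fin (lb b v), Q (v ++ [u.1])) (v : List ℕ) (hv : 0 < Q v)
    (i : ℕ) (hi : i < b v.length) :
    wt (lb b) Q v i = 1 / b v.length ∧ 0 < Q (v ++ [i]) := by
  have h1 : ∀ u : Fin (lb b v), Q (v ++ [u.1]) = Q (v ++ [i]) :=
    fun u => hQl _ _ (by simp)
  have h2 : ∑ u : Fin (lb b v), Q (v ++ [u.1]) = b v.length * Q (v ++ [i]) := by
    simp only [h1, Finset.sum_const, Finset.card_univ, Fintype.card_fin, nsmul_eq_mul]
    rfl
  have h3 := hQS v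
  rw [h2] at h3
  have h4 : 0 < Q (v ++ [i]) := by
    rcases (hQ (v ++ [i])).eq_or_lt with h | h
    · rw [← h] at h3; linarith
    · exact h
  refine ⟨?_, h4⟩
  rw [wt, h2]
  have h5 : (b v.length : ℝ) ≠ 0 := by
    intro h; rw [h] at h3; linarith
  field_simp

lemma dE_lower (hb : ∀ n, 2 ≤ b n ∧ b n ≤ N) (hρ : ∀ n, 0 < ρ n) (hδ : 0 < δ)
    (hin : ∀ n, ∀ u < b n, ‖z n u‖ + ρ (n + 1) ≤ ρ n)
    (hsep : ∀ n, ∀ i < b n, ∀ j < b n, i ≠ j →
      (1 + δ) * (2 * ρ (n + 1)) ≤ ‖z n i - z n j‖) (n : ℕ) :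
    1 / ρ n ≤ 4 * dE b z n := by
  have hbn : (2 : ℝ) ≤ b n := by exact_mod_cast (hb n).1
  have hρn := hρ n
  have h1 : ∀ i j : Fin (b n), (if i = j then 0 else 1 / (2 * ρ n)) ≤
      (if i = j then 0 else 1 / ‖z n i - z n j‖) := by
    intro i j
    split_ifs with h
    · exact le_rfl
    · have hij : i.1 ≠ j.1 := fun hh => h (Fin.ext hh)
      have h2 := hsep n i i.2 j j.2 hij
      have h3 := norm_sub_le (z n i) (z n j)
      have h4 := hin n i i.2
      have h5 := hin n j j.2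
      have h6 := hρ (n + 1)
      have h7 : 0 < ‖z n i - z n j‖ := by
        have : 0 < (1 + δ) * (2 * ρ (n + 1)) := by positivity
        linarith
      apply one_div_le_one_div_of_le h7
      linarith
  have h2 : (b n : ℝ) * (b n - 1) / (2 * ρ n) ≤ ∑ i : Fin (b n), ∑ j : Fin (b n),
      (if i = j then 0 else 1 / ‖z n i - z n j‖) := by
    calc (b n : ℝ) * (b n - 1) / (2 * ρ n) = ∑ i : Fin (b n), ∑ j : Fin (b n),
          (if i = j then 0 else 1 / (2 * ρ n)) := by
          have e1 : ∀ i j : Fin (b n), (if i = j then (0:ℝ) else 1 / (2 * ρ n)) =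
              1 / (2 * ρ n) - (if i = j then 1 / (2 * ρ n) else 0) := by
            intro i j; split_ifs <;> ring
          simp only [e1, Finset.sum_sub_distrib, Finset.sum_ite_eq, Finset.mem_univ, if_true,
            Finset.sum_const, Finset.card_univ, Fintype.card_fin, nsmul_eq_mul]
          ring
      _ ≤ _ := Finset.sum_le_sum fun i _ => Finset.sum_le_sum fun j _ => h1 i j
  have h3 : (b n - 1) / (2 * ρ n * b n) ≤ dE b z n := by
    unfold dE
    rw [le_div_iff₀ (by positivity)]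
    refine le_trans (le_of_eq ?_) h2
    field_simp
  have h4 : 1 / ρ n ≤ 4 * ((b n - 1) / (2 * ρ n * b n)) := by
    rw [← mul_div_assoc, div_le_div_iff₀ (by positivity) (by positivity)]
    nlinarith
  linarith

/-- homogeneous sets with one angle per generation -/
theorem level (hb : ∀ n, 2 ≤ b n ∧ b n ≤ N) (hρ : ∀ n, 0 < ρ n) (hδ : 0 < δ)
    (hin : ∀ n, ∀ u < b n, ‖z n u‖ + ρ (n + 1) ≤ ρ n)
    (hsep : ∀ n, ∀ i < b n, ∀ j < b n, i ≠ j →
      (1 + δ) * (2 * ρ (n + 1)) ≤ ‖z n i - z n j‖) :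
    (∀ φ : ℕ → ℝ, IsCompact (pt (fun v : List ℕ => v.length) (lz z) φ [] '' Br (lb b) [])) ∧
    Measurable (fun φ : ℕ → ℝ =>
      favard (pt (fun v : List ℕ => v.length) (lz z) φ [] '' Br (lb b) [])) ∧
    (∫⁻ φ, favard (pt (fun v : List ℕ => v.length) (lz z) φ [] '' Br (lb b) []) ∂(PP ℕ) ≤
      ENNReal.ofReal (2 * π ^ 2 * N ^ 2) * (TT b z)⁻¹) ∧
    ∀ ψ : ℕ → ℝ, ENNReal.ofReal (δ / (80 * (1 + δ))) * (TT b z)⁻¹ ≤
      anCap (pt (fun v : List ℕ => v.length) (lz z) ψ [] '' Br (lb b) []) := by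
  have hhalf := half_level hb hρ hδ hin hsep
  have hN : 1 ≤ N := by have := hb 0; omega
  have hbN : ∀ v, lb b v ≤ N := fun v => (hb v.length).2
  have hρ' : ∀ v, 0 < lr ρ v := fun v => hρ v.length
  have hin' := hin_level hin
  have hsep' := hsep_level hsep
  have hsh' := hsh_level (b := b) hhalf
  have hb0 : ∀ n, b n ≠ 0 := fun n => by have := hb n; omega
  have hc1 : ∀ v w : List ℕ, w ≠ [] → (v ++ w).length ≠ v.length := by
    intro v w hw h
    apply hw
    simpa using h
  have hc2 : ∀ v : List ℕ, ∀ i < lb b v, ∀ j < lb b v, i ≠ j →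
      (∀ w, lb b (v ++ [i] ++ w) = lb b (v ++ [j] ++ w) ∧
        lr ρ (v ++ [i] ++ w) = lr ρ (v ++ [j] ++ w) ∧
        (v ++ [i] ++ w).length = (v ++ [j] ++ w).length ∧
        ∀ u, lz z (v ++ [i] ++ w ++ [u]) = lz z (v ++ [j] ++ w ++ [u])) ∨
      (∀ w w' : List ℕ, (v ++ [i] ++ w).length ≠ (v ++ [j] ++ w').length) := by
    intro v i _ j _ _
    left
    exact level_same (v ++ [i]) (v ++ [j]) (by simp)
  have hNr : (1 : ℝ) ≤ N := by exact_mod_cast hN
  have hT0 : TT b z ≠ 0 := by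
    intro h
    unfold TT at h
    rw [ENNReal.tsum_eq_zero] at h
    have h1 := h 0
    rw [Finset.range_zero, Finset.prod_empty, div_one, ENNReal.ofReal_eq_zero] at h1
    have h2 := dE_lower hb hρ hδ hin hsep 0
    have h3 : 0 < 1 / ρ 0 := one_div_pos.2 (hρ 0)
    linarith
  refine ⟨fun φ => isCompact_image hbN hρ' (by norm_num) (by norm_num) hin' hsh' φ [],
    measurable_favard hρ' (by norm_num) (by norm_num) hin' hsh', ?_, fun ψ => ?_⟩
  · -- upper bound
    have key : ∀ θ, ENNReal.ofReal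
        (Q (fun v : List ℕ => v.length) (lb b) (lz z) (lr ρ) θ []) ≤
        ENNReal.ofReal (2 * π * N ^ 2) * (TT b z)⁻¹ := by
      intro θ
      set q := Q (fun v : List ℕ => v.length) (lb b) (lz z) (lr ρ) θ with hq
      rcases (Q_nonneg (fun v : List ℕ => v.length) (lb b) (lz z) (lr ρ) θ []).eq_or_lt
        with h | h
      · rw [hq, ← h]; simp
      · have hq0 : 0 < q [] := h
        have h1 : ∀ n, LL b z ρ n 0 ≤ 2 * π * N ^ 2 / q [] := by
          intro n
          have h2 := En_le_of_Q hN hbN hρ' hδ hin' hsep' hc1 hc2 θ [] h n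
          have h3 := En_level (z := z) (ρ := ρ)
            (wt_level (Q := q) (Q_level θ) (Q_nonneg _ _ _ _ θ) (Q_le_sum _ _ _ _ hin' θ))
            n [] hq0 hb0
          rw [← hq, h3] at h2
          exact h2
        have h4 : TT b z ≤ ENNReal.ofReal (2 * π * N ^ 2 / q []) := by
          apply TT_le_of_forall
          intro n
          have h5 := h1 n
          rw [LL_eq] at h5
          simp only [zero_add] at h5
          have h6 : 0 ≤ 1 / ρ n / ∏ l ∈ Finset.range n, (b l : ℝ) := by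
            have := hρ n
            apply div_nonneg (by positivity)
            exact Finset.prod_nonneg fun _ _ => by positivity
          linarith
        have h5 : (ENNReal.ofReal (2 * π * N ^ 2 / q []))⁻¹ ≤ (TT b z)⁻¹ :=
          ENNReal.inv_le_inv.2 h4
        calc ENNReal.ofReal (q []) = ENNReal.ofReal (2 * π * N ^ 2) *
              (ENNReal.ofReal (2 * π * N ^ 2 / q []))⁻¹ := by
              rw [← ENNReal.ofReal_inv_of_pos (by positivity),
                ← ENNReal.ofReal_mul (by positivity)]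
              congr 1
              field_simp
          _ ≤ _ := by gcongr
    refine (lintegral_favard_le hρ' (by norm_num) (by norm_num) hin' hsh' key).trans ?_
    rw [← mul_assoc, ← ENNReal.ofReal_mul (by positivity)]
    exact mul_le_mul' (ENNReal.ofReal_le_ofReal (le_of_eq (by ring))) le_rfl
  · -- lower bound
    by_cases hT : TT b z = ∞
    · rw [hT]; simp
    set t := (TT b z).toReal with ht
    have ht0 : 0 < t := ENNReal.toReal_pos hT0 hT
    set U : List ℕ → ℝ := fun v => 1 / ∏ l ∈ Finset.range v.length, (b l : ℝ) with hU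
    have hPpos : ∀ n, 0 < ∏ l ∈ Finset.range n, (b l : ℝ) := fun n =>
      Finset.prod_pos fun l _ => by exact_mod_cast Nat.pos_of_ne_zero (hb0 l)
    have hUpos : ∀ v, 0 < U v := fun v => one_div_pos.2 (hPpos _)
    have hUS : ∀ v, U v ≤ ∑ u : Fin (lb b v), U (v ++ [u.1]) := by
      intro v
      have hbv : (b v.length : ℝ) ≠ 0 := by exact_mod_cast hb0 v.length
      have hP := (hPpos v.length).ne'
      simp only [hU, List.length_append, List.length_singleton, Finset.sum_const,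
        Finset.card_univ, Fintype.card_fin, nsmul_eq_mul, Finset.prod_range_succ]
      have h3 : (lb b v : ℝ) = b v.length := rfl
      rw [h3]
      apply le_of_eq
      field_simp
    have hUl : ∀ v v' : List ℕ, v.length = v'.length → U v = U v' := by
      intro v v' h; simp only [hU, h]
    have hEn : ∀ n, En (lb b) (lz z) (lr ρ) U n [] ≤ 5 * t := by
      intro n
      rw [En_level (z := z) (ρ := ρ) (wt_level hUl (fun v => (hUpos v).le) hUS) n []
        (hUpos []) hb0, LL_eq]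
      simp only [List.length_nil, zero_add]
      have h1 := sum_le_TT hT n
      have h2 := sum_le_TT hT (n + 1)
      rw [Finset.sum_range_succ] at h2
      have h3 := Finset.sum_nonneg (s := Finset.range n) (fun k _ => term_nonneg b z k)
      have h4 : 1 / ρ n / ∏ l ∈ Finset.range n, (b l : ℝ) ≤
          4 * (dE b z n / ∏ l ∈ Finset.range n, (b l : ℝ)) := by
        rw [← mul_div_assoc]
        have := hPpos n
        gcongr
        exact dE_lower hb hρ hδ hin hsep n
      linarith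
    have h1 := anCap_of_flow (c := fun v : List ℕ => v.length) hbN hρ' hδ
      (by norm_num : (0:ℝ) < 1 / 2) (by norm_num) hin' hsep' hsh' (fun v => (hUpos v).le) hUS
      (M := 5 * t) (by positivity) hEn (hUpos []) ψ
    refine le_trans (le_of_eq ?_) h1
    have h2 : TT b z = ENNReal.ofReal t := (ENNReal.ofReal_toReal hT).symm
    rw [h2, ← ENNReal.ofReal_inv_of_pos ht0, ← ENNReal.ofReal_mul (by positivity)]
    congr 1
    field_simp
    norm_num

end

end Pool.Agent.H52F
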