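import Pool.Agent.H52F.Rec

set_option autoImplicit false
set_option linter.unusedSectionVars false

open MeasureTheory Set Filter Topology
open scoped ENNReal Real

namespace Pool.Agent.H52F

variable {ι : Type*}
variable (c : List ℕ → ι) (b : List ℕ → ℕ) (z : List ℕ → ℂ) (ρ : List ℕ → ℝ)

noncomputable def qr (θ : ℝ) (n : ℕ) (v : List ℕ) : ℝ := (qq c b z ρ θ n v).toReal

noncomputable def Q (θ : ℝ) (v : List ℕ) : ℝ := ⨅ n, qr c b z ρ θ n v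

lemma qq_ne_top (hin : ∀ v, ∀ u < b v, ‖z (v ++ [u])‖ + ρ (v ++ [u]) ≤ ρ v)
    (θ : ℝ) (n : ℕ) (v : List ℕ) : qq c b z ρ θ n v ≠ ∞ :=
  ne_top_of_le_ne_top ENNReal.ofReal_ne_top (qq_le c b z ρ hin θ n v)

lemma qr_nonneg (θ : ℝ) (n : ℕ) (v : List ℕ) : 0 ≤ qr c b z ρ θ n v := ENNReal.toReal_nonneg

lemma bddBelow_qr (θ : ℝ) (v : List ℕ) : BddBelow (range fun n => qr c b z ρ θ n v) :=
  ⟨0, by rintro _ ⟨n, rfl⟩; exact qr_nonneg c b z ρ θ n v⟩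

lemma qr_anti (hin : ∀ v, ∀ u < b v, ‖z (v ++ [u])‖ + ρ (v ++ [u]) ≤ ρ v)
    (θ : ℝ) (v : List ℕ) : Antitone (fun n => qr c b z ρ θ n v) := by
  intro m n hmn
  exact ENNReal.toReal_mono (qq_ne_top c b z ρ hin θ m v) (qq_anti c b z ρ hin θ v hmn)

lemma tendsto_qr (hin : ∀ v, ∀ u < b v, ‖z (v ++ [u])‖ + ρ (v ++ [u]) ≤ ρ v)
    (θ : ℝ) (v : List ℕ) :
    Tendsto (fun n => qr c b z ρ θ n v) atTop (𝓝 (Q c b z ρ θ v)) :=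
  tendsto_atTop_ciInf (qr_anti c b z ρ hin θ v) (bddBelow_qr c b z ρ θ v)

lemma Q_nonneg (θ : ℝ) (v : List ℕ) : 0 ≤ Q c b z ρ θ v :=
  le_ciInf fun n => qr_nonneg c b z ρ θ n v

lemma Q_le_qr (θ : ℝ) (n : ℕ) (v : List ℕ) : Q c b z ρ θ v ≤ qr c b z ρ θ n v :=
  ciInf_le (bddBelow_qr c b z ρ θ v) n

lemma Q_le (hρ : ∀ v, 0 < ρ v)
    (hin : ∀ v, ∀ u < b v, ‖z (v ++ [u])‖ + ρ (v ++ [u]) ≤ ρ v)
    (θ : ℝ) (v : List ℕ) : Q c b z ρ θ v ≤ 2 * ρ v := by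
  refine (Q_le_qr c b z ρ θ 0 v).trans ?_
  have h := ENNReal.toReal_mono ENNReal.ofReal_ne_top (qq_le c b z ρ hin θ 0 v)
  rwa [ENNReal.toReal_ofReal (by linarith [hρ v])] at h

lemma qr_le_sum (hin : ∀ v, ∀ u < b v, ‖z (v ++ [u])‖ + ρ (v ++ [u]) ≤ ρ v)
    (θ : ℝ) (n : ℕ) (v : List ℕ) :
    qr c b z ρ θ (n + 1) v ≤ ∑ u : Fin (b v), qr c b z ρ θ n (v ++ [u.1]) := by
  unfold qr
  rw [← ENNReal.toReal_sum (fun u _ => qq_ne_top c b z ρ hin θ n _)]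
  apply ENNReal.toReal_mono _ (qq_le_sum c b z ρ θ n v)
  exact ENNReal.sum_ne_top.2 fun u _ => qq_ne_top c b z ρ hin θ n _

lemma qr_pair (hρ : ∀ v, 0 < ρ v)
    (hin : ∀ v, ∀ u < b v, ‖z (v ++ [u])‖ + ρ (v ++ [u]) ≤ ρ v)
    (hc1 : ∀ v w, w ≠ [] → c (v ++ w) ≠ c v)
    (θ : ℝ) (n : ℕ) (v : List ℕ) {i j : ℕ} (hi : i < b v) (hj : j < b v) (hij : i ≠ j)
    (hsep : ρ (v ++ [i]) + ρ (v ++ [j]) < ‖z (v ++ [i]) - z (v ++ [j])‖)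
    (h : (∀ w, b (v ++ [i] ++ w) = b (v ++ [j] ++ w) ∧ ρ (v ++ [i] ++ w) = ρ (v ++ [j] ++ w) ∧
        c (v ++ [i] ++ w) = c (v ++ [j] ++ w) ∧
        ∀ u, z (v ++ [i] ++ w ++ [u]) = z (v ++ [j] ++ w ++ [u])) ∨
      (∀ w w', c (v ++ [i] ++ w) ≠ c (v ++ [j] ++ w'))) :
    qr c b z ρ θ (n + 1) v +
        qr c b z ρ θ n (v ++ [i]) * qr c b z ρ θ n (v ++ [j]) / (2 * π * ‖z (v ++ [i]) - z (v ++ [j])‖) ≤
      ∑ u : Fin (b v), qr c b z ρ θ n (v ++ [u.1]) := by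
  have h1 := qq_mul c b z ρ θ n v i j h
  have h2 := overlap_int c b z ρ hρ hin hc1 θ n v hsep
  have hd : 0 < ‖z (v ++ [i]) - z (v ++ [j])‖ := by
    linarith [hρ (v ++ [i]), hρ (v ++ [j])]
  have h3 := qq_pair c b z ρ θ n v hi hj hij
  set X := ∫⁻ φ, volume ({s | s - sh c z θ φ v i ∈ cov c b z ρ θ φ n (v ++ [i])} ∩
          {s | s - sh c z θ φ v j ∈ cov c b z ρ θ φ n (v ++ [j])}) ∂(PP ι) with hX
  have hsum : (∑ u : Fin (b v), qq c b z ρ θ n (v ++ [u.1])) ≠ ∞ :=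
    ENNReal.sum_ne_top.2 fun u _ => qq_ne_top c b z ρ hin θ n _
  have hXtop : X ≠ ∞ := by
    intro hX'
    rw [hX', add_top] at h3
    exact hsum (top_le_iff.1 h3)
  have h4 : qr c b z ρ θ (n + 1) v + X.toReal ≤
      ∑ u : Fin (b v), qr c b z ρ θ n (v ++ [u.1]) := by
    unfold qr
    rw [← ENNReal.toReal_sum (fun u _ => qq_ne_top c b z ρ hin θ n _),
      ← ENNReal.toReal_add (qq_ne_top c b z ρ hin θ (n + 1) v) hXtop]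
    exact ENNReal.toReal_mono hsum h3
  have h5 : qr c b z ρ θ n (v ++ [i]) * qr c b z ρ θ n (v ++ [j]) ≤
      (2 * π * ‖z (v ++ [i]) - z (v ++ [j])‖) * X.toReal := by
    unfold qr
    rw [← ENNReal.toReal_mul]
    have hpos : 0 ≤ 2 * π * ‖z (v ++ [i]) - z (v ++ [j])‖ := by positivity
    have h6 := ENNReal.toReal_mono (ENNReal.mul_ne_top ENNReal.ofReal_ne_top hXtop)
      (h1.trans h2)
    rwa [ENNReal.toReal_mul (a := ENNReal.ofReal _), ENNReal.toReal_ofReal hpos] at h6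
  have hpos : 0 < 2 * π * ‖z (v ++ [i]) - z (v ++ [j])‖ := by positivity
  have h6 : qr c b z ρ θ n (v ++ [i]) * qr c b z ρ θ n (v ++ [j]) / (2 * π * ‖z (v ++ [i]) - z (v ++ [j])‖) ≤
      X.toReal := by
    rw [div_le_iff₀ hpos]
    linarith
  linarith

lemma Q_le_sum (hin : ∀ v, ∀ u < b v, ‖z (v ++ [u])‖ + ρ (v ++ [u]) ≤ ρ v)
    (θ : ℝ) (v : List ℕ) :
    Q c b z ρ θ v ≤ ∑ u : Fin (b v), Q c b z ρ θ (v ++ [u.1]) := by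
  have h1 : Tendsto (fun n => qr c b z ρ θ (n + 1) v) atTop (𝓝 (Q c b z ρ θ v)) :=
    (tendsto_add_atTop_iff_nat 1).2 (tendsto_qr c b z ρ hin θ v)
  have h2 : Tendsto (fun n => ∑ u : Fin (b v), qr c b z ρ θ n (v ++ [u.1])) atTop
      (𝓝 (∑ u : Fin (b v), Q c b z ρ θ (v ++ [u.1]))) :=
    tendsto_finsetSum _ fun u _ => tendsto_qr c b z ρ hin θ _
  exact le_of_tendsto_of_tendsto' h1 h2 fun n => qr_le_sum c b z ρ hin θ n v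

lemma Q_pair (hρ : ∀ v, 0 < ρ v)
    (hin : ∀ v, ∀ u < b v, ‖z (v ++ [u])‖ + ρ (v ++ [u]) ≤ ρ v)
    (hc1 : ∀ v w, w ≠ [] → c (v ++ w) ≠ c v)
    (θ : ℝ) (v : List ℕ) {i j : ℕ} (hi : i < b v) (hj : j < b v) (hij : i ≠ j)
    (hsep : ρ (v ++ [i]) + ρ (v ++ [j]) < ‖z (v ++ [i]) - z (v ++ [j])‖)
    (h : (∀ w, b (v ++ [i] ++ w) = b (v ++ [j] ++ w) ∧ ρ (v ++ [i] ++ w) = ρ (v ++ [j] ++ w) ∧
        c (v ++ [i] ++ w) = c (v ++ [j] ++ w) ∧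
        ∀ u, z (v ++ [i] ++ w ++ [u]) = z (v ++ [j] ++ w ++ [u])) ∨
      (∀ w w', c (v ++ [i] ++ w) ≠ c (v ++ [j] ++ w'))) :
    Q c b z ρ θ v + Q c b z ρ θ (v ++ [i]) * Q c b z ρ θ (v ++ [j]) / (2 * π * ‖z (v ++ [i]) - z (v ++ [j])‖) ≤
      ∑ u : Fin (b v), Q c b z ρ θ (v ++ [u.1]) := by
  have h1 : Tendsto (fun n => qr c b z ρ θ (n + 1) v +
      qr c b z ρ θ n (v ++ [i]) * qr c b z ρ θ n (v ++ [j]) / (2 * π * ‖z (v ++ [i]) - z (v ++ [j])‖)) atTop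
      (𝓝 (Q c b z ρ θ v +
        Q c b z ρ θ (v ++ [i]) * Q c b z ρ θ (v ++ [j]) / (2 * π * ‖z (v ++ [i]) - z (v ++ [j])‖))) := by
    apply Tendsto.add
    · exact (tendsto_add_atTop_iff_nat 1).2 (tendsto_qr c b z ρ hin θ v)
    · exact ((tendsto_qr c b z ρ hin θ _).mul (tendsto_qr c b z ρ hin θ _)).div_const _
  have h2 : Tendsto (fun n => ∑ u : Fin (b v), qr c b z ρ θ n (v ++ [u.1])) atTop
      (𝓝 (∑ u : Fin (b v), Q c b z ρ θ (v ++ [u.1]))) :=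
    tendsto_finsetSum _ fun u _ => tendsto_qr c b z ρ hin θ _
  exact le_of_tendsto_of_tendsto' h1 h2 fun n =>
    qr_pair c b z ρ hρ hin hc1 θ n v hi hj hij hsep h

end Pool.Agent.H52F
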