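import Pool.Agent.H52F.Lim
import Pool.Agent.H52F.Fav
import Pool.Agent.H52F.Cap

set_option autoImplicit false
set_option linter.unusedSectionVars false
set_option linter.unusedVariables false

open MeasureTheory Set Filter Topology
open scoped ENNReal Real

namespace Pool.Agent.H52F

variable {ι : Type*}
variable {c : List ℕ → ι} {b : List ℕ → ℕ} {z : List ℕ → ℂ} {ρ : List ℕ → ℝ} {δ κ : ℝ}

lemma measurableSet_bad (b : List ℕ → ℕ) (v : List ℕ) (n : ℕ) :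
    MeasurableSet {σ : ℕ → ℕ | ¬ σ n < b (v ++ cut σ n)} := by
  have h3 : Continuous (fun σ : ℕ → ℕ => (σ n, b (v ++ cut σ n))) :=
    (continuous_apply n).prodMk (continuous_cut (fun l => b (v ++ l)) n)
  have h4 : {σ : ℕ → ℕ | ¬ σ n < b (v ++ cut σ n)} =
      (fun σ : ℕ → ℕ => (σ n, b (v ++ cut σ n))) ⁻¹' {p | ¬ p.1 < p.2} := rfl
  rw [h4]
  exact ((isClosed_discrete _).preimage h3).measurableSet

lemma ae_Br {Q : List ℕ → ℝ} (hQ : ∀ v, 0 ≤ Q v)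
    (hQS : ∀ v, Q v ≤ ∑ u : Fin (b v), Q (v ++ [u.1]))
    [∀ v, IsProbabilityMeasure (kap b Q v)] (v : List ℕ) (hv : 0 < Q v) :
    ∀ᵐ σ ∂(mu (kap b Q) v), σ ∈ Br b v := by
  have key : ∀ n : ℕ, ∀ v, 0 < Q v →
      mu (kap b Q) v {σ : ℕ → ℕ | ¬ σ n < b (v ++ cut σ n)} = 0 := by
    intro n
    induction n with
    | zero =>
      intro v hv
      have hS : 0 < ∑ w : Fin (b v), Q (v ++ [w.1]) := lt_of_lt_of_le hv (hQS v)
      rw [← lintegral_indicator_one (measurableSet_bad b v 0), lintegral_mu (kap b Q) v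
        (measurable_one.indicator (measurableSet_bad b v 0)), lintegral_kap v hS]
      apply Finset.sum_eq_zero
      intro u _
      have : ∀ σ : ℕ → ℕ, ({σ : ℕ → ℕ | ¬ σ 0 < b (v ++ cut σ 0)}.indicator
          (1 : (ℕ → ℕ) → ℝ≥0∞) (cns u.1 σ)) = 0 := by
        intro σ
        apply indicator_of_notMem
        simp [cut, u.2]
      simp only [this, lintegral_const, zero_mul, mul_zero]
    | succ n ih =>
      intro v hv
      have hS : 0 < ∑ w : Fin (b v), Q (v ++ [w.1]) := lt_of_lt_of_le hv (hQS v)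
      rw [← lintegral_indicator_one (measurableSet_bad b v (n + 1)), lintegral_mu (kap b Q) v
        (measurable_one.indicator (measurableSet_bad b v (n + 1))), lintegral_kap v hS]
      apply Finset.sum_eq_zero
      intro u _
      have h1 : ∀ σ : ℕ → ℕ, ({σ : ℕ → ℕ | ¬ σ (n + 1) < b (v ++ cut σ (n + 1))}.indicator
          (1 : (ℕ → ℕ) → ℝ≥0∞) (cns u.1 σ)) =
          {σ : ℕ → ℕ | ¬ σ n < b (v ++ [u.1] ++ cut σ n)}.indicator
            (1 : (ℕ → ℕ) → ℝ≥0∞) σ := by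
        intro σ
        have hmem : cns u.1 σ ∈ {σ : ℕ → ℕ | ¬ σ (n + 1) < b (v ++ cut σ (n + 1))} ↔
            σ ∈ {σ : ℕ → ℕ | ¬ σ n < b (v ++ [u.1] ++ cut σ n)} := by
          simp only [mem_ofPred_eq, cut_succ', cns_succ, cns_zero, tl_cns, ← List.append_assoc]
        by_cases hσ : σ ∈ {σ : ℕ → ℕ | ¬ σ n < b (v ++ [u.1] ++ cut σ n)}
        · rw [indicator_of_mem hσ, indicator_of_mem (hmem.2 hσ)]; rfl
        · rw [indicator_of_notMem hσ, indicator_of_notMem (fun h => hσ (hmem.1 h))]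
      simp only [h1]
      rw [lintegral_indicator_one (measurableSet_bad b (v ++ [u.1]) n)]
      rcases (hQ (v ++ [u.1])).eq_or_lt with h0 | h0
      · have : wt b Q v u = 0 := by unfold wt; rw [← h0]; simp
        rw [this]; simp
      · rw [ih _ h0, mul_zero]
  have : ∀ᵐ σ ∂(mu (kap b Q) v), ∀ n, σ n < b (v ++ cut σ n) := by
    rw [ae_all_iff]
    intro n
    exact key n v hv
  exact this

lemma Kn_self (n : ℕ) (v : List ℕ) (σ : ℕ → ℕ) :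
    Kn z ρ n v σ σ = ENNReal.ofReal (1 / ρ (v ++ cut σ n)) := by
  induction n generalizing v σ with
  | zero => simp [Kn, cut]
  | succ n ih =>
    rw [Kn, if_pos rfl, ih, cut_succ', ← List.append_assoc]

lemma tendsto_Kn_self (hρ : ∀ v, 0 < ρ v) (hκ0 : 0 < κ) (hκ : κ < 1)
    (hsh : ∀ v, ∀ u < b v, ρ (v ++ [u]) ≤ κ * ρ v) (v : List ℕ) (σ : ℕ → ℕ)
    (hσ : σ ∈ Br b v) : Tendsto (fun n => Kn z ρ n v σ σ) atTop (𝓝 ∞) := by
  simp only [Kn_self]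
  apply ENNReal.tendsto_ofReal_atTop.comp
  have h1 : Tendsto (fun n : ℕ => (κ ^ n)⁻¹ * (ρ v)⁻¹) atTop atTop := by
    apply Tendsto.atTop_mul_const (inv_pos.2 (hρ v))
    have h2 : Tendsto (fun n : ℕ => (κ⁻¹) ^ n) atTop atTop :=
      tendsto_pow_atTop_atTop_of_one_lt ((one_lt_inv₀ hκ0).2 hκ)
    simpa [inv_pow] using h2
  apply tendsto_atTop_mono _ h1
  intro n
  have h2 := radius_le hκ0.le hsh v σ hσ n
  rw [← mul_inv, one_div]
  exact inv_anti₀ (hρ _) h2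

/-- the kernel bound for all pairs of branches -/
lemma inv_le_liminf (hρ : ∀ v, 0 < ρ v) (hδ : 0 < δ) (hκ0 : 0 < κ) (hκ : κ < 1)
    (hin : ∀ v, ∀ u < b v, ‖z (v ++ [u])‖ + ρ (v ++ [u]) ≤ ρ v)
    (hsep : ∀ v, ∀ i < b v, ∀ j < b v, i ≠ j →
      (1 + δ) * (ρ (v ++ [i]) + ρ (v ++ [j])) ≤ ‖z (v ++ [i]) - z (v ++ [j])‖)
    (hsh : ∀ v, ∀ u < b v, ρ (v ++ [u]) ≤ κ * ρ v)
    (φ : ι → ℝ) (v : List ℕ) (σ τ : ℕ → ℕ) (hσ : σ ∈ Br b v) (hτ : τ ∈ Br b v) :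
    ‖pt c z φ v σ - pt c z φ v τ‖ₑ⁻¹ ≤
      liminf (fun n => ENNReal.ofReal ((1 + δ) / δ) * Kn z ρ n v σ τ) atTop := by
  by_cases h : σ = τ
  · subst h
    have h1 : Tendsto (fun n => ENNReal.ofReal ((1 + δ) / δ) * Kn z ρ n v σ σ) atTop
        (𝓝 (ENNReal.ofReal ((1 + δ) / δ) * ∞)) :=
      ENNReal.Tendsto.const_mul (tendsto_Kn_self hρ hκ0 hκ hsh v σ hσ)
        (Or.inl ENNReal.top_ne_zero)
    have h2 : ENNReal.ofReal ((1 + δ) / δ) * ∞ = ∞ := by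
      apply ENNReal.mul_top
      simp only [ne_eq, ENNReal.ofReal_eq_zero, not_le]
      positivity
    rw [h2] at h1
    rw [h1.liminf_eq]
    exact le_top
  · obtain ⟨m, hm⟩ := Function.ne_iff.1 h
    apply le_liminf_of_le
    · isBoundedDefault
    · filter_upwards [eventually_gt_atTop m] with n hn
      exact sep hρ hδ hin hsep φ n v σ τ hσ hτ ⟨m, hn, hm⟩

/-- a flow of finite energy bounds the analytic capacity of every rearrangement from below -/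
theorem anCap_of_flow {N : ℕ} (hbN : ∀ v, b v ≤ N) (hρ : ∀ v, 0 < ρ v)
    (hδ : 0 < δ) (hκ0 : 0 < κ) (hκ : κ < 1)
    (hin : ∀ v, ∀ u < b v, ‖z (v ++ [u])‖ + ρ (v ++ [u]) ≤ ρ v)
    (hsep : ∀ v, ∀ i < b v, ∀ j < b v, i ≠ j →
      (1 + δ) * (ρ (v ++ [i]) + ρ (v ++ [j])) ≤ ‖z (v ++ [i]) - z (v ++ [j])‖)
    (hsh : ∀ v, ∀ u < b v, ρ (v ++ [u]) ≤ κ * ρ v)
    {Q : List ℕ → ℝ} (hQ : ∀ v, 0 ≤ Q v)
    (hQS : ∀ v, Q v ≤ ∑ u : Fin (b v), Q (v ++ [u.1]))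
    {M : ℝ} (hM : 0 < M) (hEn : ∀ n, En b z ρ Q n [] ≤ M)
    (h0 : 0 < Q []) (φ : ι → ℝ) :
    ENNReal.ofReal ((16 * ((1 + δ) / δ * M))⁻¹) ≤ anCap (pt c z φ [] '' Br b []) := by
  have hkap : ∀ v, IsProbabilityMeasure (kap b Q v) := kap_prob hQ
  set P := mu (kap b Q) [] with hP
  set X := pt c z φ [] with hX
  have hBr : ∀ᵐ σ ∂P, σ ∈ Br b [] := ae_Br hQ hQS [] h0
  have hBrc : IsCompact (Br b []) := isCompact_Br hbN []
  have hcont : ContinuousOn X (Br b []) := continuousOn_pt hρ hκ0.le hκ hin hsh φ []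
  have hXm : AEMeasurable X P := by
    have h1 : AEMeasurable X (P.restrict (Br b [])) :=
      hcont.aemeasurable hBrc.isClosed.measurableSet
    rwa [Measure.restrict_eq_self_of_ae_mem hBr] at h1
  have hE : IsCompact (X '' Br b []) := hBrc.image_of_continuousOn hcont
  have : IsProbabilityMeasure (P.map X) := Measure.isProbabilityMeasure_map hXm
  apply energy_anCap hE (P.map X)
  · rw [Measure.map_apply_of_aemeasurable hXm hE.measurableSet.compl]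
    have h1 : X ⁻¹' (X '' Br b [])ᶜ ⊆ (Br b [])ᶜ := by
      intro σ hσ hσ2
      exact hσ ⟨σ, hσ2, rfl⟩
    exact measure_mono_null h1 hBr
  · positivity
  · -- energy
    have e1 : ∫⁻ x, ∫⁻ y, ‖x - y‖ₑ⁻¹ ∂(P.map X) ∂(P.map X) =
        ∫⁻ σ, ∫⁻ τ, ‖X σ - X τ‖ₑ⁻¹ ∂P ∂P := by
      rw [lintegral_map' (measurable_pot (P.map X)).aemeasurable hXm]
      apply lintegral_congr
      intro σ
      rw [lintegral_map' (by fun_prop) hXm]
    rw [e1]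
    set G : ℕ → (ℕ → ℕ) × (ℕ → ℕ) → ℝ≥0∞ :=
      fun n p => ENNReal.ofReal ((1 + δ) / δ) * Kn z ρ n [] p.1 p.2 with hG
    have hGm : ∀ n, Measurable (G n) := fun n => (measurable_Kn z ρ n []).const_mul _
    have e2 : ∫⁻ σ, ∫⁻ τ, ‖X σ - X τ‖ₑ⁻¹ ∂P ∂P ≤
        ∫⁻ σ, ∫⁻ τ, liminf (fun n => G n (σ, τ)) atTop ∂P ∂P := by
      apply lintegral_mono_ae
      filter_upwards [hBr] with σ hσ
      apply lintegral_mono_ae
      filter_upwards [hBr] with τ hτ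
      exact inv_le_liminf hρ hδ hκ0 hκ hin hsep hsh φ [] σ τ hσ hτ
    have e3 : ∫⁻ σ, ∫⁻ τ, liminf (fun n => G n (σ, τ)) atTop ∂P ∂P =
        ∫⁻ p, liminf (fun n => G n p) atTop ∂(P.prod P) := by
      rw [lintegral_prod]
      exact (Measurable.liminf hGm).aemeasurable
    have e4 : ∫⁻ p, liminf (fun n => G n p) atTop ∂(P.prod P) ≤
        liminf (fun n => ∫⁻ p, G n p ∂(P.prod P)) atTop := lintegral_liminf_le hGm
    have e5 : ∀ n, ∫⁻ p, G n p ∂(P.prod P) ≤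
        ENNReal.ofReal ((1 + δ) / δ * M) := by
      intro n
      rw [hG]
      simp only
      rw [lintegral_const_mul _ (measurable_Kn z ρ n []),
        lintegral_prod _ (measurable_Kn z ρ n []).aemeasurable,
        ENNReal.ofReal_mul (by positivity)]
      gcongr
      exact (energy_le hρ hQ hQS n [] h0).trans (ENNReal.ofReal_le_ofReal (hEn n))
    have e6 : liminf (fun n => ∫⁻ p, G n p ∂(P.prod P)) atTop ≤
        ENNReal.ofReal ((1 + δ) / δ * M) := by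
      apply liminf_le_of_le
      · isBoundedDefault
      · intro a ha
        obtain ⟨n, hn⟩ := ha.exists
        exact hn.trans (e5 n)
    exact (e2.trans (e3.le.trans (e4.trans e6)))

/-- the expected Favard length is at most the integral of the limits `Q` -/
theorem lintegral_favard_le (hρ : ∀ v, 0 < ρ v) (hκ0 : 0 ≤ κ) (hκ : κ < 1)
    (hin : ∀ v, ∀ u < b v, ‖z (v ++ [u])‖ + ρ (v ++ [u]) ≤ ρ v)
    (hsh : ∀ v, ∀ u < b v, ρ (v ++ [u]) ≤ κ * ρ v) {x : ℝ≥0∞}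
    (hQ : ∀ θ, ENNReal.ofReal (Q c b z ρ θ []) ≤ x) :
    ∫⁻ φ, favard (pt c z φ [] '' Br b []) ∂(PP ι) ≤ ENNReal.ofReal π * x := by
  set W : ℝ → (ι → ℝ) → ℝ≥0∞ := fun θ φ => ⨅ n, volume (cov c b z ρ θ φ n []) with hW
  have hWm : Measurable (fun p : ℝ × (ι → ℝ) => W p.1 p.2) := measurable_W
  have h1 : ∀ θ, ∫⁻ φ, W θ φ ∂(PP ι) ≤ x := by
    intro θ
    have h2 : ∀ n, ∫⁻ φ, W θ φ ∂(PP ι) ≤ qq c b z ρ θ n [] := by
      intro n
      exact lintegral_mono fun φ => iInf_le _ n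
    have h3 : Tendsto (fun n => qq c b z ρ θ n []) atTop
        (𝓝 (ENNReal.ofReal (Q c b z ρ θ []))) := by
      refine (ENNReal.tendsto_ofReal (tendsto_qr c b z ρ hin θ [])).congr fun n => ?_
      exact ENNReal.ofReal_toReal (qq_ne_top c b z ρ hin θ n [])
    exact (ge_of_tendsto' h3 h2).trans (hQ θ)
  have h2 : ∫⁻ φ, favard (pt c z φ [] '' Br b []) ∂(PP ι) =
      ∫⁻ φ, (∫⁻ θ in Ioc (0:ℝ) π, W θ φ) ∂(PP ι) :=
    lintegral_congr fun φ => favard_eq hρ hκ0 hκ hin hsh φ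
  rw [h2, lintegral_lintegral_swap]
  · calc ∫⁻ θ in Ioc (0:ℝ) π, ∫⁻ φ, W θ φ ∂(PP ι) ≤ ∫⁻ θ in Ioc (0:ℝ) π, x :=
          lintegral_mono fun θ => h1 θ
      _ = ENNReal.ofReal π * x := by
          rw [lintegral_const, Measure.restrict_apply MeasurableSet.univ, univ_inter,
            Real.volume_Ioc, sub_zero, mul_comm]
  · exact (hWm.comp measurable_swap).aemeasurable

/-- if the expected lengths do not tend to zero then the flow they define has finite energy -/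
theorem En_le_of_Q {N : ℕ} (hN : 1 ≤ N) (hbN : ∀ v, b v ≤ N) (hρ : ∀ v, 0 < ρ v) (hδ : 0 < δ)
    (hin : ∀ v, ∀ u < b v, ‖z (v ++ [u])‖ + ρ (v ++ [u]) ≤ ρ v)
    (hsep : ∀ v, ∀ i < b v, ∀ j < b v, i ≠ j →
      (1 + δ) * (ρ (v ++ [i]) + ρ (v ++ [j])) ≤ ‖z (v ++ [i]) - z (v ++ [j])‖)
    (hc1 : ∀ v w, w ≠ [] → c (v ++ w) ≠ c v)
    (hc2 : ∀ v, ∀ i < b v, ∀ j < b v, i ≠ j →
      (∀ w, b (v ++ [i] ++ w) = b (v ++ [j] ++ w) ∧ ρ (v ++ [i] ++ w) = ρ (v ++ [j] ++ w) ∧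
        c (v ++ [i] ++ w) = c (v ++ [j] ++ w) ∧
        ∀ u, z (v ++ [i] ++ w ++ [u]) = z (v ++ [j] ++ w ++ [u])) ∨
      (∀ w w', c (v ++ [i] ++ w) ≠ c (v ++ [j] ++ w')))
    (θ : ℝ) (v : List ℕ) (hv : 0 < Q c b z ρ θ v) (n : ℕ) :
    En b z ρ (Q c b z ρ θ) n v ≤ 2 * π * N ^ 2 / Q c b z ρ θ v := by
  have hsep' : ∀ v, ∀ i < b v, ∀ j < b v, i ≠ j →
      ρ (v ++ [i]) + ρ (v ++ [j]) < ‖z (v ++ [i]) - z (v ++ [j])‖ := by
    intro v i hi j hj hij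
    have h1 := hsep v i hi j hj hij
    have h2 := hρ (v ++ [i])
    have h3 := hρ (v ++ [j])
    nlinarith
  apply En_le hN hbN hρ (Q_nonneg c b z ρ θ) (Q_le c b z ρ hρ hin θ) _
    (Q_le_sum c b z ρ hin θ) _ n v hv
  · intro v i hi j hj hij
    linarith [hsep' v i hi j hj hij, hρ (v ++ [i]), hρ (v ++ [j])]
  · intro v i j hij
    have hij' : i.1 ≠ j.1 := fun h => hij (Fin.ext h)
    exact Q_pair c b z ρ hρ hin hc1 θ v i.2 j.2 hij' (hsep' v i.1 i.2 j.1 j.2 hij')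
      (hc2 v i.1 i.2 j.1 j.2 hij')

/-- the averaged inequality, with angles attached to colours -/
theorem averaged {N : ℕ} (hN : 1 ≤ N) (hbN : ∀ v, b v ≤ N) (hρ : ∀ v, 0 < ρ v)
    (hδ : 0 < δ) (hκ : κ < 1)
    (hin : ∀ v, ∀ u < b v, ‖z (v ++ [u])‖ + ρ (v ++ [u]) ≤ ρ v)
    (hsep : ∀ v, ∀ i < b v, ∀ j < b v, i ≠ j →
      (1 + δ) * (ρ (v ++ [i]) + ρ (v ++ [j])) ≤ ‖z (v ++ [i]) - z (v ++ [j])‖)
    (hsh : ∀ v, ∀ u < b v, ρ (v ++ [u]) ≤ κ * ρ v)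
    (hc1 : ∀ v w, w ≠ [] → c (v ++ w) ≠ c v)
    (hc2 : ∀ v, ∀ i < b v, ∀ j < b v, i ≠ j →
      (∀ w, b (v ++ [i] ++ w) = b (v ++ [j] ++ w) ∧ ρ (v ++ [i] ++ w) = ρ (v ++ [j] ++ w) ∧
        c (v ++ [i] ++ w) = c (v ++ [j] ++ w) ∧
        ∀ u, z (v ++ [i] ++ w ++ [u]) = z (v ++ [j] ++ w ++ [u])) ∨
      (∀ w w', c (v ++ [i] ++ w) ≠ c (v ++ [j] ++ w'))) :
    (∀ φ : ι → ℝ, IsCompact (pt c z φ [] '' Br b [])) ∧
    Measurable (fun φ : ι → ℝ => favard (pt c z φ [] '' Br b [])) ∧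
    ∀ ψ : ι → ℝ, ∫⁻ φ, favard (pt c z φ [] '' Br b []) ∂(PP ι) ≤
      ENNReal.ofReal (32 * π ^ 2 * N ^ 2 * (1 + δ) / δ) * anCap (pt c z ψ [] '' Br b []) := by
  have hsh' : ∀ v, ∀ u < b v, ρ (v ++ [u]) ≤ max κ (1 / 2) * ρ v := by
    intro v u hu
    refine (hsh v u hu).trans ?_
    have := hρ v
    gcongr
    exact le_max_left _ _
  have hκ0 : 0 < max κ (1 / 2) := by positivity
  have hκ1 : max κ (1 / 2) < 1 := max_lt hκ (by norm_num)
  refine ⟨fun φ => isCompact_image hbN hρ hκ0.le hκ1 hin hsh' φ [],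
    measurable_favard hρ hκ0.le hκ1 hin hsh', fun ψ => ?_⟩
  have hNr : (1 : ℝ) ≤ N := by exact_mod_cast hN
  have key : ∀ θ, ENNReal.ofReal (Q c b z ρ θ []) ≤
      ENNReal.ofReal (32 * π * N ^ 2 * (1 + δ) / δ) * anCap (pt c z ψ [] '' Br b []) := by
    intro θ
    rcases (Q_nonneg c b z ρ θ []).eq_or_lt with h | h
    · rw [← h]; simp
    · have h1 := anCap_of_flow (c := c) hbN hρ hδ hκ0 hκ1 hin hsep hsh' (Q_nonneg c b z ρ θ)
        (Q_le_sum c b z ρ hin θ) (M := 2 * π * N ^ 2 / Q c b z ρ θ []) (by positivity)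
        (fun n => En_le_of_Q hN hbN hρ hδ hin hsep hc1 hc2 θ [] h n) h ψ
      have h2 : Q c b z ρ θ [] = 32 * π * N ^ 2 * (1 + δ) / δ *
          (16 * ((1 + δ) / δ * (2 * π * N ^ 2 / Q c b z ρ θ [])))⁻¹ := by
        field_simp
        norm_num
      calc ENNReal.ofReal (Q c b z ρ θ []) = ENNReal.ofReal (32 * π * N ^ 2 * (1 + δ) / δ) *
            ENNReal.ofReal ((16 * ((1 + δ) / δ * (2 * π * N ^ 2 / Q c b z ρ θ [])))⁻¹) := by
            rw [← ENNReal.ofReal_mul (by positivity), ← h2]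
        _ ≤ _ := by gcongr
  refine (lintegral_favard_le hρ hκ0.le hκ1 hin hsh' key).trans ?_
  rw [← mul_assoc, ← ENNReal.ofReal_mul (by positivity)]
  gcongr
  apply le_of_eq
  ring

end Pool.Agent.H52F
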