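import Mathlib

set_option autoImplicit false
set_option linter.unusedSectionVars false

open MeasureTheory Set
open scoped ENNReal

namespace Pool.Agent.H52F

variable {ι α : Type*} [MeasurableSpace α]

open Classical in
/-- glue two families: the first one on `S`, the second one off `S` -/
noncomputable def glue (S : Set ι) (p : (ι → α) × (ι → α)) : ι → α :=
  fun i => if i ∈ S then p.1 i else p.2 i

lemma glue_mem {S : Set ι} (p : (ι → α) × (ι → α)) {i : ι} (h : i ∈ S) :
    glue S p i = p.1 i := by simp [glue, h]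

lemma glue_not_mem {S : Set ι} (p : (ι → α) × (ι → α)) {i : ι} (h : i ∉ S) :
    glue S p i = p.2 i := by simp [glue, h]

lemma measurable_glue (S : Set ι) : Measurable (glue (ι := ι) (α := α) S) := by
  rw [measurable_pi_iff]
  intro i
  by_cases h : i ∈ S
  · have : (fun p : (ι → α) × (ι → α) => glue S p i) = fun p => p.1 i := by
      funext p; exact glue_mem p h
    rw [this]; fun_prop
  · have : (fun p : (ι → α) × (ι → α) => glue S p i) = fun p => p.2 i := by
      funext p; exact glue_not_mem p h
    rw [this]; fun_prop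

lemma glue_map (μ : ι → Measure α) [∀ i, IsProbabilityMeasure (μ i)] (S : Set ι) :
    ((Measure.infinitePi μ).prod (Measure.infinitePi μ)).map (glue S) =
      Measure.infinitePi μ := by
  classical
  apply Measure.eq_infinitePi
  intro s t ht
  rw [Measure.map_apply (measurable_glue S)
    (MeasurableSet.pi s.countable_toSet fun i _ => ht i)]
  have : glue S ⁻¹' (Set.pi (s : Set ι) t) =
      (Set.pi ((s.filter (fun i => i ∈ S) : Finset ι) : Set ι) t) ×ˢ
        (Set.pi ((s.filter (fun i => i ∉ S) : Finset ι) : Set ι) t) := by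
    ext p
    simp only [mem_preimage, mem_pi, Finset.mem_coe, mem_prod, Finset.mem_filter]
    constructor
    · intro h
      refine ⟨fun i hi => ?_, fun i hi => ?_⟩
      · have := h i hi.1
        rwa [glue_mem p hi.2] at this
      · have := h i hi.1
        rwa [glue_not_mem p hi.2] at this
    · intro h i hi
      by_cases hS : i ∈ S
      · rw [glue_mem p hS]; exact h.1 i ⟨hi, hS⟩
      · rw [glue_not_mem p hS]; exact h.2 i ⟨hi, hS⟩
  rw [this, Measure.prod_prod, Measure.infinitePi_pi _ (fun i _ => ht i),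
    Measure.infinitePi_pi _ (fun i _ => ht i), Finset.prod_filter_mul_prod_filter_not]

lemma lintegral_glue (μ : ι → Measure α) [∀ i, IsProbabilityMeasure (μ i)] (S : Set ι)
    {f : (ι → α) → ℝ≥0∞} (hf : Measurable f) :
    ∫⁻ w, f w ∂(Measure.infinitePi μ) =
      ∫⁻ w, ∫⁻ w', f (glue S (w, w')) ∂(Measure.infinitePi μ) ∂(Measure.infinitePi μ) := by
  conv_lhs => rw [← glue_map μ S]
  rw [lintegral_map hf (measurable_glue S), lintegral_prod]
  exact (hf.comp (measurable_glue S)).aemeasurable

/-- independence of functions of disjoint sets of coordinates -/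
lemma lintegral_mul_of_disjoint (μ : ι → Measure α) [∀ i, IsProbabilityMeasure (μ i)]
    (S : Set ι) {f g : (ι → α) → ℝ≥0∞} (hf : Measurable f) (hg : Measurable g)
    (hfS : ∀ w w' : ι → α, (∀ i ∈ S, w i = w' i) → f w = f w')
    (hgS : ∀ w w' : ι → α, (∀ i, i ∉ S → w i = w' i) → g w = g w') :
    ∫⁻ w, f w * g w ∂(Measure.infinitePi μ) =
      (∫⁻ w, f w ∂(Measure.infinitePi μ)) * (∫⁻ w, g w ∂(Measure.infinitePi μ)) := by
  rw [lintegral_glue μ S (f := fun w => f w * g w) (hf.mul hg)]
  have : ∀ w w' : ι → α, f (glue S (w, w')) * g (glue S (w, w')) = f w * g w' := by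
    intro w w'
    rw [hfS (glue S (w, w')) w (fun i hi => glue_mem _ hi),
      hgS (glue S (w, w')) w' (fun i hi => glue_not_mem _ hi)]
  simp only [this]
  rw [← lintegral_lintegral_mul hf.aemeasurable hg.aemeasurable]

/-- integrating out one coordinate -/
lemma lintegral_coord (μ : ι → Measure α) [∀ i, IsProbabilityMeasure (μ i)] (i₀ : ι)
    {F : α → (ι → α) → ℝ≥0∞} (hF : Measurable (fun p : α × (ι → α) => F p.1 p.2))
    (hFi : ∀ x (w w' : ι → α), (∀ i, i ≠ i₀ → w i = w' i) → F x w = F x w') :
    ∫⁻ w, F (w i₀) w ∂(Measure.infinitePi μ) =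
      ∫⁻ w, ∫⁻ x, F x w ∂(μ i₀) ∂(Measure.infinitePi μ) := by
  have h1 : Measurable (fun w : ι → α => F (w i₀) w) := by
    have h0 : Measurable (fun w : ι → α => (w i₀, w)) :=
      (measurable_pi_apply i₀).prodMk measurable_id
    exact hF.comp h0
  rw [lintegral_glue μ {i₀} h1]
  have h2 : ∀ w w' : ι → α, F (glue {i₀} (w, w') i₀) (glue {i₀} (w, w')) = F (w i₀) w' := by
    intro w w'
    rw [glue_mem _ (mem_singleton i₀)]
    exact hFi _ _ _ (fun i hi => glue_not_mem _ (by simpa using hi))
  simp only [h2]
  rw [lintegral_lintegral_swap]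
  · congr 1
    funext w'
    rw [← Measure.infinitePi_map_eval μ i₀, lintegral_map]
    · exact hF.comp (measurable_id.prodMk measurable_const)
    · exact measurable_pi_apply i₀
  · have h0 : Measurable (fun p : (ι → α) × (ι → α) => (p.1 i₀, p.2)) := by fun_prop
    exact (hF.comp h0).aemeasurable

end Pool.Agent.H52F
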