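import Pool.Agent.H52F.Cov

set_option autoImplicit false
set_option linter.unusedSectionVars false

open MeasureTheory Set Filter Topology
open scoped ENNReal Real

namespace Pool.Agent.H52F

variable {ι : Type*}
variable (c : List ℕ → ι) (b : List ℕ → ℕ) (z : List ℕ → ℂ) (ρ : List ℕ → ℝ)

lemma measurable_pair (θ : ℝ) (n : ℕ) (v : List ℕ) (i j : ℕ) :
    Measurable (fun p : ℝ × (ι → ℝ) => volume
      ({s | s - proj θ (Complex.exp (Complex.I * p.1) * z (v ++ [i])) ∈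
          cov c b z ρ θ p.2 n (v ++ [i])} ∩
        {s | s - proj θ (Complex.exp (Complex.I * p.1) * z (v ++ [j])) ∈
          cov c b z ρ θ p.2 n (v ++ [j])})) := by
  have key : ∀ i : ℕ, MeasurableSet {p : (ℝ × (ι → ℝ)) × ℝ |
      p.2 - proj θ (Complex.exp (Complex.I * p.1.1) * z (v ++ [i])) ∈
          cov c b z ρ θ p.1.2 n (v ++ [i])} := by
    intro i
    have h1 := measurableSet_cov_joint c b z ρ n (v ++ [i])
    have h2 : Measurable (fun p : (ℝ × (ι → ℝ)) × ℝ =>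
        (((θ, p.1.2) : ℝ × (ι → ℝ)),
          p.2 - proj θ (Complex.exp (Complex.I * p.1.1) * z (v ++ [i])))) := by
      unfold proj
      fun_prop
    exact h2 h1
  exact measurable_measure_prodMk_left ((key i).inter (key j))

lemma overlap_int (hρ : ∀ v, 0 < ρ v)
    (hin : ∀ v, ∀ u < b v, ‖z (v ++ [u])‖ + ρ (v ++ [u]) ≤ ρ v)
    (hc1 : ∀ v w, w ≠ [] → c (v ++ w) ≠ c v)
    (θ : ℝ) (n : ℕ) (v : List ℕ) {i j : ℕ}
    (hsep : ρ (v ++ [i]) + ρ (v ++ [j]) < ‖z (v ++ [i]) - z (v ++ [j])‖) :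
    ∫⁻ φ, volume (cov c b z ρ θ φ n (v ++ [i])) * volume (cov c b z ρ θ φ n (v ++ [j]))
        ∂(PP ι) ≤
      ENNReal.ofReal (2 * π * ‖z (v ++ [i]) - z (v ++ [j])‖) *
        ∫⁻ φ, volume ({s | s - sh c z θ φ v i ∈ cov c b z ρ θ φ n (v ++ [i])} ∩
          {s | s - sh c z θ φ v j ∈ cov c b z ρ θ φ n (v ++ [j])}) ∂(PP ι) := by
  have h1 := lintegral_coord (fun _ : ι => unif) (c v)
    (F := fun x φ => volume
      ({s | s - proj θ (Complex.exp (Complex.I * x) * z (v ++ [i])) ∈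
          cov c b z ρ θ φ n (v ++ [i])} ∩
        {s | s - proj θ (Complex.exp (Complex.I * x) * z (v ++ [j])) ∈
          cov c b z ρ θ φ n (v ++ [j])}))
    (measurable_pair c b z ρ θ n v i j) (by
      intro x w w' hww
      have hcg : ∀ u : ℕ, cov c b z ρ θ w n (v ++ [u]) = cov c b z ρ θ w' n (v ++ [u]) := by
        intro u
        apply cov_congr
        intro t
        apply hww
        rw [List.append_assoc]
        exact hc1 v _ (by simp)
      simp only [hcg])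
  have h2 : ∫⁻ φ, volume ({s | s - sh c z θ φ v i ∈ cov c b z ρ θ φ n (v ++ [i])} ∩
          {s | s - sh c z θ φ v j ∈ cov c b z ρ θ φ n (v ++ [j])}) ∂(PP ι) =
      ∫⁻ φ, ∫⁻ x, volume
      ({s | s - proj θ (Complex.exp (Complex.I * x) * z (v ++ [i])) ∈
          cov c b z ρ θ φ n (v ++ [i])} ∩
        {s | s - proj θ (Complex.exp (Complex.I * x) * z (v ++ [j])) ∈
          cov c b z ρ θ φ n (v ++ [j])}) ∂unif ∂(PP ι) := h1
  rw [h2, ← lintegral_const_mul _ (Measurable.lintegral_prod_left'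
    (measurable_pair c b z ρ θ n v i j))]
  apply lintegral_mono
  intro φ
  simp only [volume_shift_pair]
  set w : ℂ := z (v ++ [j]) - z (v ++ [i]) with hw
  have hwn : ‖w‖ = ‖z (v ++ [i]) - z (v ++ [j])‖ := norm_sub_rev _ _
  have h3 : ∀ x : ℝ, proj θ (Complex.exp (Complex.I * x) * z (v ++ [j])) -
      proj θ (Complex.exp (Complex.I * x) * z (v ++ [i])) =
      proj θ (Complex.exp (Complex.I * x) * w) := by
    intro x; rw [← proj_sub, hw, mul_sub]
  simp only [h3]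
  have hpos : 0 < ‖w‖ := by
    rw [hwn]; linarith [hρ (v ++ [i]), hρ (v ++ [j])]
  refine (overlap (θ := θ) (w := w) (measurableSet_cov c b z ρ θ φ n (v ++ [i]))
    (measurableSet_cov c b z ρ θ φ n (v ++ [j]))
    (cov_subset c b z ρ hin θ φ n (v ++ [i])) (cov_subset c b z ρ hin θ φ n (v ++ [j]))
    (by rw [hwn]; exact hsep) hpos).trans ?_
  rw [hwn]

lemma measurable_inter (θ : ℝ) (n : ℕ) (v : List ℕ) (i j : ℕ) :
    Measurable (fun φ : ι → ℝ =>
      volume ({s | s - sh c z θ φ v i ∈ cov c b z ρ θ φ n (v ++ [i])} ∩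
          {s | s - sh c z θ φ v j ∈ cov c b z ρ θ φ n (v ++ [j])})) := by
  have h0 : Measurable (fun φ : ι → ℝ => (φ (c v), φ)) := by fun_prop
  exact (measurable_pair c b z ρ θ n v i j).comp h0

/-- the basic recursive inequality for one pair of children -/
lemma qq_pair (θ : ℝ) (n : ℕ) (v : List ℕ) {i j : ℕ} (hi : i < b v) (hj : j < b v)
    (hij : i ≠ j) :
    qq c b z ρ θ (n + 1) v +
      ∫⁻ φ, volume ({s | s - sh c z θ φ v i ∈ cov c b z ρ θ φ n (v ++ [i])} ∩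
          {s | s - sh c z θ φ v j ∈ cov c b z ρ θ φ n (v ++ [j])}) ∂(PP ι) ≤
      ∑ u : Fin (b v), qq c b z ρ θ n (v ++ [u.1]) := by
  unfold qq
  rw [← lintegral_finsetSum _ (fun u _ => measurable_vol' c b z ρ θ n _),
    ← lintegral_add_right _ (measurable_inter c b z ρ θ n v i j)]
  apply lintegral_mono
  intro φ
  have h := measure_union_pair
    (fun u : Fin (b v) => {s | s - sh c z θ φ v u ∈ cov c b z ρ θ φ n (v ++ [u.1])})
    (by
      intro u
      exact (measurable_id.sub_const _) (measurableSet_cov c b z ρ θ φ n (v ++ [u.1])))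
    (i := ⟨i, hi⟩) (j := ⟨j, hj⟩) (by simpa [Fin.ext_iff] using hij)
  simp only [volume_shift] at h
  exact h

lemma qq_le_sum (θ : ℝ) (n : ℕ) (v : List ℕ) :
    qq c b z ρ θ (n + 1) v ≤ ∑ u : Fin (b v), qq c b z ρ θ n (v ++ [u.1]) := by
  unfold qq
  rw [← lintegral_finsetSum _ (fun u _ => measurable_vol' c b z ρ θ n _)]
  apply lintegral_mono
  intro φ
  have h := measure_iUnion_fintype_le (volume : Measure ℝ)
    (fun u : Fin (b v) => {s | s - sh c z θ φ v u ∈ cov c b z ρ θ φ n (v ++ [u.1])})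
  simp only [volume_shift] at h
  exact h

lemma qq_le (hin : ∀ v, ∀ u < b v, ‖z (v ++ [u])‖ + ρ (v ++ [u]) ≤ ρ v)
    (θ : ℝ) (n : ℕ) (v : List ℕ) : qq c b z ρ θ n v ≤ ENNReal.ofReal (2 * ρ v) := by
  unfold qq
  calc ∫⁻ φ, volume (cov c b z ρ θ φ n v) ∂(PP ι)
      ≤ ∫⁻ _φ, ENNReal.ofReal (2 * ρ v) ∂(PP ι) :=
        lintegral_mono fun φ => vol_le c b z ρ hin θ φ n v
    _ = ENNReal.ofReal (2 * ρ v) := by simp

lemma qq_anti (hin : ∀ v, ∀ u < b v, ‖z (v ++ [u])‖ + ρ (v ++ [u]) ≤ ρ v)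
    (θ : ℝ) (v : List ℕ) : Antitone (fun n => qq c b z ρ θ n v) := by
  apply antitone_nat_of_succ_le
  intro n
  exact lintegral_mono fun φ => measure_mono (cov_anti c b z ρ hin θ φ n v)

/-- Jensen for a bounded function -/
lemma sq_le_lintegral_sq {Ω : Type*} [MeasurableSpace Ω] (P : Measure Ω)
    [IsProbabilityMeasure P] {f : Ω → ℝ≥0∞} (hf : Measurable f) :
    (∫⁻ w, f w ∂P) * (∫⁻ w, f w ∂P) ≤ ∫⁻ w, f w * f w ∂P := by
  have h := ENNReal.lintegral_mul_le_Lp_mul_Lq P Real.HolderConjugate.two_two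
    hf.aemeasurable (aemeasurable_const (b := (1 : ℝ≥0∞)))
  simp only [Pi.mul_apply, mul_one, ENNReal.rpow_two, one_pow, lintegral_const, measure_univ,
    ENNReal.one_rpow] at h
  have h2 : ((∫⁻ w, f w ^ 2 ∂P) ^ (1 / 2 : ℝ)) * ((∫⁻ w, f w ^ 2 ∂P) ^ (1 / 2 : ℝ)) =
      ∫⁻ w, f w * f w ∂P := by
    rw [← ENNReal.rpow_add_of_nonneg _ _ (by norm_num) (by norm_num)]
    norm_num
    simp only [sq]
  rw [← h2]
  gcongr

/-- expected product of the lengths of two covers -/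
lemma qq_mul (θ : ℝ) (n : ℕ) (v : List ℕ) (i j : ℕ)
    (h : (∀ w, b (v ++ [i] ++ w) = b (v ++ [j] ++ w) ∧ ρ (v ++ [i] ++ w) = ρ (v ++ [j] ++ w) ∧
        c (v ++ [i] ++ w) = c (v ++ [j] ++ w) ∧
        ∀ u, z (v ++ [i] ++ w ++ [u]) = z (v ++ [j] ++ w ++ [u])) ∨
      (∀ w w', c (v ++ [i] ++ w) ≠ c (v ++ [j] ++ w'))) :
    qq c b z ρ θ n (v ++ [i]) * qq c b z ρ θ n (v ++ [j]) ≤
      ∫⁻ φ, volume (cov c b z ρ θ φ n (v ++ [i])) * volume (cov c b z ρ θ φ n (v ++ [j]))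
        ∂(PP ι) := by
  rcases h with h | h
  · have h1 : ∀ φ : ι → ℝ, cov c b z ρ θ φ n (v ++ [i]) = cov c b z ρ θ φ n (v ++ [j]) :=
      fun φ => cov_same c b z ρ θ φ n _ _ h
    unfold qq
    simp only [h1]
    exact sq_le_lintegral_sq _ (measurable_vol' c b z ρ θ n _)
  · apply le_of_eq
    symm
    exact lintegral_mul_of_disjoint (fun _ : ι => unif) {a | ∃ w, c (v ++ [i] ++ w) = a}
      (measurable_vol' c b z ρ θ n (v ++ [i])) (measurable_vol' c b z ρ θ n (v ++ [j]))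
      (by
        intro w w' hww
        rw [cov_congr c b z ρ θ w w' n (v ++ [i])]
        intro t
        exact hww _ ⟨t, rfl⟩)
      (by
        intro w w' hww
        rw [cov_congr c b z ρ θ w w' n (v ++ [j])]
        intro t
        apply hww
        rintro ⟨s, hs⟩
        exact h s t hs)

end Pool.Agent.H52F
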